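import Mathlib

/-!
# Determinants and adjugates of `1 + ∑ x xᵀ`
-/

set_option autoImplicit false

namespace Pool.Agent.Helper49.HS

open Matrix

variable {d : ℕ}

/-- A real vector from an integer vector. -/
def rv (x : Fin d → ℤ) : Fin d → ℝ := fun i => (x i : ℝ)

/-- A real matrix from an integer matrix. -/
def rm (A : Matrix (Fin d) (Fin d) ℤ) : Matrix (Fin d) (Fin d) ℝ := A.map (Int.castRingHom ℝ)

theorem rm_apply (A : Matrix (Fin d) (Fin d) ℤ) (i j : Fin d) : rm A i j = (A i j : ℝ) := rfl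

theorem rm_det (A : Matrix (Fin d) (Fin d) ℤ) : (rm A).det = (A.det : ℝ) :=
  ((Int.castRingHom ℝ).map_det A).symm

theorem rm_adj (A : Matrix (Fin d) (Fin d) ℤ) : (rm A).adjugate = rm A.adjugate :=
  ((Int.castRingHom ℝ).map_adjugate A).symm

theorem rm_mul (A B : Matrix (Fin d) (Fin d) ℤ) : rm (A * B) = rm A * rm B :=
  Matrix.map_mul

theorem rm_mulVec (A : Matrix (Fin d) (Fin d) ℤ) (x : Fin d → ℤ) :
    rm A *ᵥ rv x = rv (A *ᵥ x) := by
  funext i
  simp [Matrix.mulVec, dotProduct, rv, rm_apply]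

theorem rv_dot (x y : Fin d → ℤ) : rv x ⬝ᵥ rv y = ((x ⬝ᵥ y : ℤ) : ℝ) := by
  simp [dotProduct, rv]

/-- The matrix determinant lemma. -/
theorem det_add_vmv {A : Matrix (Fin d) (Fin d) ℤ} (hA : A.det ≠ 0) (u v : Fin d → ℤ) :
    (A + vecMulVec u v).det = A.det + v ⬝ᵥ (A.adjugate *ᵥ u) := by
  have h0 : (rm A).det ≠ 0 := by
    rw [rm_det]
    exact_mod_cast hA
  have hu : IsUnit (rm A).det := isUnit_iff_ne_zero.2 h0
  have h1 := Matrix.det_add_replicateCol_mul_replicateRow (ι := Unit) hu (rv u) (rv v)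
  have e1 : rm A + replicateCol Unit (rv u) * replicateRow Unit (rv v) =
      rm (A + vecMulVec u v) := by
    ext i j
    simp [Matrix.mul_apply, rm_apply, vecMulVec_apply, rv]
  rw [e1, rm_det] at h1
  have e2 : (1 + replicateRow Unit (rv v) * (rm A)⁻¹ * replicateCol Unit (rv u)).det =
      1 + rv v ⬝ᵥ ((rm A)⁻¹ *ᵥ rv u) := by
    rw [Matrix.det_unique, Matrix.add_apply, Matrix.one_apply_eq, Matrix.mul_assoc]
    congr 1
  rw [e2, Matrix.inv_def, rm_adj, Matrix.smul_mulVec, dotProduct_smul, rm_mulVec, rv_dot,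
    rm_det] at h1
  have h3 : ((A.det : ℤ) : ℝ) ≠ 0 := by exact_mod_cast hA
  rw [Ring.inverse_eq_inv', smul_eq_mul, mul_add, mul_one, ← mul_assoc, mul_inv_cancel₀ h3,
    one_mul] at h1
  exact_mod_cast h1

theorem adj_mulVec_symm {A : Matrix (Fin d) (Fin d) ℤ} (hs : Aᵀ = A) (x : Fin d → ℤ) :
    x ᵥ* A.adjugate = A.adjugate *ᵥ x := by
  rw [← Matrix.mulVec_transpose, Matrix.adjugate_transpose, hs]

/-- The update of the adjugate. -/
theorem adj_add_vmv {A : Matrix (Fin d) (Fin d) ℤ} (hA : A.det ≠ 0) (hs : Aᵀ = A)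
    (x : Fin d → ℤ) (hB : (A + vecMulVec x x).det ≠ 0) :
    (A + vecMulVec x x).det • A.adjugate -
      vecMulVec (A.adjugate *ᵥ x) (A.adjugate *ᵥ x) = A.det • (A + vecMulVec x x).adjugate := by
  set B := A + vecMulVec x x with hBdef
  set y := A.adjugate *ᵥ x with hy
  have hdet : B.det = A.det + x ⬝ᵥ y := det_add_vmv hA x x
  have hAy : A *ᵥ y = A.det • x := by
    rw [hy, Matrix.mulVec_mulVec, Matrix.mul_adjugate, Matrix.smul_mulVec, Matrix.one_mulVec]
  have h1 : B * (B.det • A.adjugate - vecMulVec y y) = (A.det * B.det) • 1 := by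
    have e1 : A * A.adjugate = A.det • 1 := Matrix.mul_adjugate A
    have e2 : vecMulVec x x * A.adjugate = vecMulVec x y := by
      rw [Matrix.vecMulVec_mul, adj_mulVec_symm hs]
    have e3 : A * vecMulVec y y = A.det • vecMulVec x y := by
      rw [Matrix.mul_vecMulVec, hAy, Matrix.smul_vecMulVec]
    have e4 : vecMulVec x x * vecMulVec y y = (x ⬝ᵥ y) • vecMulVec x y := by
      ext i j
      simp only [Matrix.mul_apply, vecMulVec_apply, Matrix.smul_apply, dotProduct, smul_eq_mul,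
        Finset.sum_mul]
      refine Finset.sum_congr rfl fun k _ => ?_
      ring
    rw [Matrix.mul_sub, Matrix.mul_smul, hBdef, Matrix.add_mul, Matrix.add_mul, e1, e2, e3, e4,
      ← hBdef, hdet]
    ext i j
    simp only [Matrix.sub_apply, Matrix.smul_apply, Matrix.add_apply, smul_eq_mul]
    ring
  have h2 : B * (A.det • B.adjugate) = (A.det * B.det) • 1 := by
    rw [Matrix.mul_smul, Matrix.mul_adjugate, smul_smul]
  have h3 : B.adjugate * (B * (B.det • A.adjugate - vecMulVec y y)) =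
      B.adjugate * (B * (A.det • B.adjugate)) := by rw [h1, h2]
  rw [← Matrix.mul_assoc, ← Matrix.mul_assoc, Matrix.adjugate_mul, Matrix.smul_mul,
    Matrix.smul_mul, Matrix.one_mul, Matrix.one_mul] at h3
  ext i j
  have h4 := congrFun (congrFun h3 i) j
  simp only [Matrix.smul_apply, smul_eq_mul] at h4
  exact mul_left_cancel₀ hB h4

/-- The Gram matrix `1 + ∑ x xᵀ`. -/
def gram (S : List (Fin d → ℤ)) : Matrix (Fin d) (Fin d) ℤ :=
  S.foldl (fun A x => A + vecMulVec x x) 1

theorem foldl_gram (S : List (Fin d → ℤ)) : ∀ A : Matrix (Fin d) (Fin d) ℤ,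
    S.foldl (fun A x => A + vecMulVec x x) A = A + (S.map fun x => vecMulVec x x).sum := by
  induction S with
  | nil => intro A; simp
  | cons x S ih => intro A; rw [List.foldl_cons, ih, List.map_cons, List.sum_cons, add_assoc]

theorem gram_eq (S : List (Fin d → ℤ)) : gram S = 1 + (S.map fun x => vecMulVec x x).sum :=
  foldl_gram S 1

theorem gram_nil : gram ([] : List (Fin d → ℤ)) = 1 := rfl

theorem gram_append (S : List (Fin d → ℤ)) (x : Fin d → ℤ) :
    gram (S ++ [x]) = gram S + vecMulVec x x := by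
  rw [gram, List.foldl_append]
  rfl

theorem gram_perm {S S' : List (Fin d → ℤ)} (h : S.Perm S') : gram S = gram S' := by
  rw [gram_eq, gram_eq, (h.map _).sum_eq]

theorem gram_cons (S : List (Fin d → ℤ)) (x : Fin d → ℤ) :
    gram (x :: S) = gram S + vecMulVec x x := by
  rw [gram_eq, gram_eq, List.map_cons, List.sum_cons]
  abel

theorem gram_symm (S : List (Fin d → ℤ)) : (gram S)ᵀ = gram S := by
  induction S with
  | nil => rw [gram_nil]; simp
  | cons x S ih => rw [gram_cons, Matrix.transpose_add, ih, Matrix.transpose_vecMulVec]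

/-- The quadratic form. -/
theorem gram_form (S : List (Fin d → ℤ)) (z : Fin d → ℝ) :
    z ⬝ᵥ (rm (gram S) *ᵥ z) = z ⬝ᵥ z + (S.map fun x => (z ⬝ᵥ rv x) ^ 2).sum := by
  induction S with
  | nil =>
    have : rm (1 : Matrix (Fin d) (Fin d) ℤ) = 1 := by
      unfold rm
      exact Matrix.map_one _ (map_zero _) (map_one _)
    rw [gram_nil, this, Matrix.one_mulVec]
    simp
  | cons x S ih =>
    have e1 : rm (gram (x :: S)) = rm (gram S) + vecMulVec (rv x) (rv x) := by
      rw [gram_cons]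
      ext i j
      simp [rm_apply, vecMulVec_apply, rv]
    rw [e1, Matrix.add_mulVec, dotProduct_add, ih, List.map_cons, List.sum_cons,
      Matrix.vecMulVec_mulVec]
    have e2 : z ⬝ᵥ (MulOpposite.op (rv x ⬝ᵥ z) • rv x) = (z ⬝ᵥ rv x) ^ 2 := by
      rw [dotProduct_comm (rv x) z]
      have : MulOpposite.op (z ⬝ᵥ rv x) • rv x = (z ⬝ᵥ rv x) • rv x := by
        funext i
        simp [mul_comm]
      rw [this, dotProduct_smul, smul_eq_mul, sq]
    rw [e2]
    ring

theorem gram_form_ge (S : List (Fin d → ℤ)) (z : Fin d → ℝ) :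
    z ⬝ᵥ z ≤ z ⬝ᵥ (rm (gram S) *ᵥ z) := by
  rw [gram_form]
  have : 0 ≤ (S.map fun x => (z ⬝ᵥ rv x) ^ 2).sum :=
    List.sum_nonneg fun a ha => by
      obtain ⟨x, _, rfl⟩ := List.mem_map.1 ha
      positivity
  linarith

theorem rm_symm {A : Matrix (Fin d) (Fin d) ℤ} (h : Aᵀ = A) : (rm A).IsHermitian := by
  unfold Matrix.IsHermitian
  rw [Matrix.conjTranspose_eq_transpose_of_trivial]
  unfold rm
  rw [← Matrix.transpose_map, h]

theorem gram_posDef (S : List (Fin d → ℤ)) : (rm (gram S)).PosDef := by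
  refine Matrix.PosDef.of_dotProduct_mulVec_pos (rm_symm (gram_symm S)) fun x hx => ?_
  have h1 : star x = x := by funext i; simp
  rw [h1]
  refine lt_of_lt_of_le ?_ (gram_form_ge S x)
  have h2 : (0 : ℝ) ≤ x ⬝ᵥ x := Finset.sum_nonneg fun i _ => mul_self_nonneg _
  rcases h2.lt_or_eq with h | h
  · exact h
  · exact absurd (dotProduct_self_eq_zero.1 h.symm) hx

theorem gram_det_pos (S : List (Fin d → ℤ)) : 0 < (gram S).det := by
  have h := (gram_posDef S).det_pos
  rw [rm_det] at h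
  exact_mod_cast h

end Pool.Agent.Helper49.HS
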