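import Pool.Agent.Helper49.HS.Energy

/-!
# Removing the points of high leverage
-/

set_option autoImplicit false

namespace Pool.Agent.Helper49.HS

open Matrix

variable {d : ℕ} {τ : Type} [DecidableEq τ]

/-- Remove the first point chosen by `hi`. -/
def stepS (hi : List τ → τ → Bool) (S : List τ) : List τ :=
  ((S.filter (hi S)).head?).elim S fun e => S.filter fun t => decide (t ≠ e)

/-- Remove points until none is chosen. -/
def clean (hi : List τ → τ → Bool) (S : List τ) : List τ := (stepS hi)^[S.length] S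

theorem stepS_stable {hi : List τ → τ → Bool} {S : List τ} (h : ∀ t ∈ S, hi S t = false) :
    stepS hi S = S := by
  have h1 : S.filter (hi S) = [] := List.filter_eq_nil_iff.2 fun t ht => by simp [h t ht]
  unfold stepS
  rw [h1]
  rfl

theorem stepS_cases (hi : List τ → τ → Bool) {S : List τ} (hnd : S.Nodup) :
    (∀ t ∈ S, hi S t = false) ∨
      ∃ e ∈ S, hi S e = true ∧ S.Perm (e :: stepS hi S) ∧ (stepS hi S).Nodup := by
  cases h1 : (S.filter (hi S)) with
  | nil =>
    left
    intro t ht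
    have := List.filter_eq_nil_iff.1 h1 t ht
    simpa using this
  | cons e l =>
    right
    have h2 : e ∈ S.filter (hi S) := by rw [h1]; exact List.mem_cons_self
    rw [List.mem_filter] at h2
    have h3 : stepS hi S = S.erase e := by
      unfold stepS
      rw [h1]
      simp only [List.head?_cons, Option.elim_some]
      rw [hnd.erase_eq_filter]
      refine List.filter_congr fun t _ => ?_
      by_cases h : t = e <;> simp [h]
    refine ⟨e, h2.1, h2.2, ?_, ?_⟩
    · rw [h3]
      exact List.perm_cons_erase h2.1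
    · rw [h3]
      exact hnd.erase e

omit [DecidableEq τ] in
/-- The determinant after the removal of a point. -/
theorem det_remove {S S' : List τ} {e : τ} (x : τ → Fin d → ℤ) (h : S.Perm (e :: S')) :
    (gram (S'.map x)).det = (gram (S.map x)).det - qf (gram (S.map x)) (x e) := by
  have h1 : gram (S.map x) = gram (S'.map x) + vecMulVec (x e) (x e) := by
    rw [gram_perm (h.map x), List.map_cons, gram_cons]
  have h2 := det_add_vmv (A := gram (S.map x)) (gram_det_pos _).ne' (-(x e)) (x e)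
  have h3 : gram (S.map x) + vecMulVec (-(x e)) (x e) = gram (S'.map x) := by
    rw [h1, Matrix.neg_vecMulVec]
    abel
  rw [h3, Matrix.mulVec_neg, dotProduct_neg] at h2
  rw [h2]
  unfold qf
  ring

theorem two_mul_pow_le {κ : ℕ} (hκ : 2 ≤ κ) : 2 * (κ - 1) ^ κ ≤ κ ^ κ := by
  obtain ⟨a, rfl⟩ : ∃ a, κ = a + 1 := ⟨κ - 1, by omega⟩
  rw [Nat.add_sub_cancel]
  have ha : (0 : ℝ) < a := by
    have : 1 ≤ a := by omega
    exact_mod_cast this
  have h1 : (2 : ℝ) ≤ (1 + 1 / (a : ℝ)) ^ (a + 1) := by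
    have h2 := one_add_mul_le_pow (a := 1 / (a : ℝ)) (by
      have : (0 : ℝ) ≤ 1 / (a : ℝ) := by positivity
      linarith) (a + 1)
    refine le_trans ?_ h2
    push_cast
    have h3 : ((a : ℝ) + 1) * (1 / a) = 1 + 1 / a := by field_simp
    rw [h3]
    have : (0 : ℝ) ≤ 1 / (a : ℝ) := by positivity
    linarith
  have h2 : (2 : ℝ) * a ^ (a + 1) ≤ (a + 1) ^ (a + 1) := by
    have h3 := mul_le_mul_of_nonneg_right h1 (by positivity : (0 : ℝ) ≤ (a : ℝ) ^ (a + 1))
    rw [← mul_pow] at h3
    have h4 : (1 + 1 / (a : ℝ)) * a = a + 1 := by field_simp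
    rwa [h4] at h3
  exact_mod_cast h2

/-- The result of the removals. -/
theorem clean_spec {hi : List τ → τ → Bool} {x : τ → Fin d → ℤ} {κ : ℕ} (hκ : 2 ≤ κ)
    (hhi : ∀ S t, hi S t = true ↔ (gram (S.map x)).det < κ * qf (gram (S.map x)) (x t))
    {S0 : List τ} (hnd : S0.Nodup) {L : ℕ} (hdet : (gram (S0.map x)).det < 2 ^ L)
    (hN : κ * L ≤ S0.length) :
    clean hi S0 ≠ [] ∧ (clean hi S0).Nodup ∧ (∀ t ∈ clean hi S0, t ∈ S0) ∧
      ∀ t ∈ clean hi S0, κ * qf (gram ((clean hi S0).map x)) (x t) ≤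
        (gram ((clean hi S0).map x)).det := by
  set D0 := (gram (S0.map x)).det with hD0
  have hinv : ∀ i : ℕ, ((stepS hi)^[i] S0).Nodup ∧ (∀ t ∈ (stepS hi)^[i] S0, t ∈ S0) ∧
      (∃ r : ℕ, ((stepS hi)^[i] S0).length + r = S0.length ∧
        (κ : ℤ) ^ r * (gram (((stepS hi)^[i] S0).map x)).det ≤ ((κ : ℤ) - 1) ^ r * D0) ∧
      ((∀ t ∈ (stepS hi)^[i] S0, hi ((stepS hi)^[i] S0) t = false) ∨
        ((stepS hi)^[i] S0).length + i = S0.length) := by
    intro i
    induction i with
    | zero =>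
      refine ⟨hnd, fun t ht => ht, ⟨0, rfl, ?_⟩, Or.inr rfl⟩
      simp [hD0]
    | succ i ih =>
      rw [Function.iterate_succ_apply']
      set T := (stepS hi)^[i] S0 with hT
      obtain ⟨h1, h2, ⟨r, h3, h4⟩, h5⟩ := ih
      rcases stepS_cases hi h1 with h6 | ⟨e, he, h6, h7, h8⟩
      · rw [stepS_stable h6]
        exact ⟨h1, h2, ⟨r, h3, h4⟩, Or.inl h6⟩
      · have h9 := h7.length_eq
        rw [List.length_cons] at h9
        refine ⟨h8, fun t ht => h2 t (h7.mem_iff.2 (List.mem_cons_of_mem _ ht)), ⟨r + 1, by omega,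
          ?_⟩, ?_⟩
        · have h10 := (hhi T e).1 h6
          rw [det_remove x h7]
          have h11 : (κ : ℤ) * ((gram (T.map x)).det - qf (gram (T.map x)) (x e)) ≤
              ((κ : ℤ) - 1) * (gram (T.map x)).det := by nlinarith
          have hκ1 : (0 : ℤ) ≤ (κ : ℤ) - 1 := by
            have : (2 : ℤ) ≤ κ := by exact_mod_cast hκ
            linarith
          calc (κ : ℤ) ^ (r + 1) * ((gram (T.map x)).det - qf (gram (T.map x)) (x e))
              = (κ : ℤ) ^ r * ((κ : ℤ) * ((gram (T.map x)).det - qf (gram (T.map x)) (x e))) := by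
                ring
            _ ≤ (κ : ℤ) ^ r * (((κ : ℤ) - 1) * (gram (T.map x)).det) :=
                mul_le_mul_of_nonneg_left h11 (by positivity)
            _ = ((κ : ℤ) - 1) * ((κ : ℤ) ^ r * (gram (T.map x)).det) := by ring
            _ ≤ ((κ : ℤ) - 1) * (((κ : ℤ) - 1) ^ r * D0) := mul_le_mul_of_nonneg_left h4 hκ1
            _ = _ := by ring
        · rcases h5 with h5 | h5
          · rw [h5 e he] at h6
            exact absurd h6 (by simp)
          · exact Or.inr (by omega)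
  obtain ⟨h1, h2, ⟨r, h3, h4⟩, h5⟩ := hinv S0.length
  have hcl : (stepS hi)^[S0.length] S0 = clean hi S0 := rfl
  rw [hcl] at h1 h2 h3 h4 h5
  have hne : clean hi S0 ≠ [] := by
    intro h0
    rw [h0] at h3 h4
    simp only [List.length_nil, zero_add] at h3
    rw [List.map_nil, gram_nil, Matrix.det_one, mul_one, h3] at h4
    set n := S0.length with hn
    have h6 : 2 ^ L * (κ - 1) ^ n ≤ κ ^ n := by
      obtain ⟨m, hm⟩ : ∃ m, n = κ * L + m := ⟨n - κ * L, by omega⟩
      rw [hm, pow_add, pow_add, pow_mul, pow_mul, ← mul_assoc, ← mul_pow]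
      exact Nat.mul_le_mul (Nat.pow_le_pow_left (two_mul_pow_le hκ) L)
        (Nat.pow_le_pow_left (Nat.sub_le _ _) m)
    have h7 : (2 : ℤ) ^ L * ((κ : ℤ) - 1) ^ n ≤ (κ : ℤ) ^ n := by
      have : (((κ - 1 : ℕ) : ℤ)) = (κ : ℤ) - 1 := by
        rw [Nat.cast_sub (by omega)]
        rfl
      rw [← this]
      exact_mod_cast h6
    have h8 : (0 : ℤ) < ((κ : ℤ) - 1) ^ n := by
      have : (0 : ℤ) < (κ : ℤ) - 1 := by
        have : (2 : ℤ) ≤ κ := by exact_mod_cast hκ
        linarith
      positivity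
    nlinarith
  have hpos : 0 < (clean hi S0).length := List.length_pos_iff.2 hne
  refine ⟨hne, h1, h2, fun t ht => ?_⟩
  rcases h5 with h5 | h5
  · have h6 := h5 t ht
    by_contra hcon
    rw [not_le] at hcon
    rw [(hhi _ t).2 hcon] at h6
    exact absurd h6 (by simp)
  · omega

end Pool.Agent.Helper49.HS
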