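import Pool.Agent.Helper49.HS.Energy

/-!
# Few signs give a large sum
-/

set_option autoImplicit false

namespace Pool.Agent.Helper49.HS

open Matrix Finset

variable {d : ℕ} {τ : Type}

theorem norm_toLp_sq (v : Fin d → ℝ) :
    ‖(WithLp.toLp 2 v : EuclideanSpace ℝ (Fin d))‖ ^ 2 = v ⬝ᵥ v := by
  rw [EuclideanSpace.norm_sq_eq]
  simp [dotProduct, sq]

theorem sum_ite_list [DecidableEq τ] {M : Type} [AddCommMonoid M] {Θ : Finset τ} {S : List τ} (hS : S.Nodup)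
    (hsub : ∀ t ∈ S, t ∈ Θ) (f : τ → M) :
    ∑ t ∈ Θ, (if t ∈ S then f t else 0) = (S.map f).sum := by
  rw [← List.sum_toFinset _ hS, ← Finset.sum_filter]
  refine Finset.sum_congr ?_ fun _ _ => rfl
  ext t
  rw [Finset.mem_filter, List.mem_toFinset]
  exact ⟨fun h => h.2, fun h => ⟨hsub t h, h⟩⟩

theorem rv_sgsum (S : List τ) (x : τ → Fin d → ℤ) (s : τ → ℤ) :
    rv (sgsum S x s) = (S.map fun t => (s t : ℝ) • rv (x t)).sum := by
  induction S with
  | nil =>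
    funext i
    simp [sgsum, rv]
  | cons t S ih =>
    rw [List.map_cons, List.sum_cons, ← ih]
    funext i
    simp [sgsum, rv]

open scoped MatrixOrder in
theorem exists_sq {C : Matrix (Fin d) (Fin d) ℝ} (h : C.PosSemidef) : ∃ B, C = Bᴴ * B := by
  obtain ⟨B, hB⟩ := CStarAlgebra.nonneg_iff_eq_star_mul_self.mp h.nonneg
  exact ⟨B, hB⟩

/-- The number of signs with a large signed sum. -/
theorem count_le [DecidableEq τ] {Θ : Finset τ} {S : List τ} (hS : S.Nodup) (hsub : ∀ t ∈ S, t ∈ Θ)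
    (x : τ → Fin d → ℤ) {N : Type} [DecidableEq N] (V : Finset N) (s : τ → N → ℤ) (E : ℕ)
    (hs : ∀ t ∈ Θ, ∀ v ∈ V, s t v * s t v = 1)
    (horth : ∀ u ∈ V, ∀ v ∈ V, u ≠ v → |∑ t ∈ Θ, s t u * s t v| ≤ (E : ℤ)) {κ : ℕ}
    (hbig : ∀ v ∈ V, κ * (gram (S.map x)).det ≤
      4 * qf (gram (S.map x)) (sgsum S x fun t => s t v)) :
    V.card * κ ≤ 4 * (Θ.card + V.card * E) * d := by
  set A := gram (S.map x) with hA
  set C := rm A.adjugate with hC
  have hδ0 : (0 : ℝ) < ((A.det : ℤ) : ℝ) := by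
    exact_mod_cast gram_det_pos _
  have hCP : C.PosSemidef := (rm_adj_posDef (S := S.map x)).posSemidef
  obtain ⟨B, hB⟩ := exists_sq hCP
  have hform : ∀ v : Fin d → ℝ, v ⬝ᵥ (C *ᵥ v) = (B *ᵥ v) ⬝ᵥ (B *ᵥ v) := by
    intro v
    rw [hB, Matrix.conjTranspose_eq_transpose_of_trivial, ← Matrix.mulVec_mulVec,
      Matrix.dotProduct_mulVec, Matrix.vecMul_transpose]
  let Bl : (Fin d → ℝ) →ₗ[ℝ] EuclideanSpace ℝ (Fin d) :=
    { toFun := fun v => WithLp.toLp 2 (B *ᵥ v)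
      map_add' := fun u v => by rw [Matrix.mulVec_add]; rfl
      map_smul' := fun c v => by rw [Matrix.mulVec_smul]; rfl }
  have hBl : ∀ v : Fin d → ℝ, ‖Bl v‖ ^ 2 = v ⬝ᵥ (C *ᵥ v) := fun v => by
    rw [hform]
    exact norm_toLp_sq _
  set F : τ → EuclideanSpace ℝ (Fin d) := fun t => if t ∈ S then Bl (rv (x t)) else 0 with hF
  have hbes := KM.bessel Θ V (fun t v => ((s t v : ℤ) : ℝ)) F (E : ℝ) (Nat.cast_nonneg _)
    (fun t ht v hv => by
      have := hs t ht v hv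
      exact_mod_cast this) (fun u hu v hv huv => by
      have := horth u hu v hv huv
      have e4 : ((∑ t ∈ Θ, s t u * s t v : ℤ) : ℝ) =
        ∑ t ∈ Θ, ((s t u : ℤ) : ℝ) * ((s t v : ℤ) : ℝ) := by
        push_cast
        rfl
      rw [← e4, ← Int.cast_abs]
      exact_mod_cast this)
  have hG : ∀ v : N, ‖∑ t ∈ Θ, ((s t v : ℤ) : ℝ) • F t‖ ^ 2 =
      (qf A (sgsum S x fun t => s t v) : ℤ) := by
    intro v
    have e1 : ∑ t ∈ Θ, ((s t v : ℤ) : ℝ) • F t = Bl (rv (sgsum S x fun t => s t v)) := by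
      have e2 : ∀ t ∈ Θ, ((s t v : ℤ) : ℝ) • F t =
          if t ∈ S then ((s t v : ℤ) : ℝ) • Bl (rv (x t)) else 0 := by
        intro t _
        rw [hF]
        simp only
        split_ifs
        · rfl
        · rw [smul_zero]
      rw [Finset.sum_congr rfl e2, sum_ite_list hS hsub, rv_sgsum, map_list_sum, List.map_map]
      refine congrArg List.sum (List.map_congr_left fun t _ => ?_)
      rw [Function.comp_apply, map_smul]
    rw [e1, hBl, ← qf_cast]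
  have hA2 : ∑ t ∈ Θ, ‖F t‖ ^ 2 ≤ d * ((A.det : ℤ) : ℝ) := by
    have e2 : ∀ t ∈ Θ, ‖F t‖ ^ 2 = if t ∈ S then ((qf A (x t) : ℤ) : ℝ) else 0 := by
      intro t _
      rw [hF]
      simp only
      split_ifs
      · rw [hBl, ← qf_cast]
      · simp
    rw [Finset.sum_congr rfl e2, sum_ite_list hS hsub]
    have e3 := sum_qf_le (S.map x)
    rw [← hA, List.map_map] at e3
    have e4 : (S.map fun t => ((qf A (x t) : ℤ) : ℝ)).sum =
        (((S.map fun t => qf A (x t)).sum : ℤ) : ℝ) := by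
      rw [Int.cast_list_sum, List.map_map]
      rfl
    rw [e4]
    exact_mod_cast e3
  have h1 : (V.card : ℝ) * (κ * ((A.det : ℤ) : ℝ)) ≤
      4 * ∑ v ∈ V, ‖∑ t ∈ Θ, ((s t v : ℤ) : ℝ) • F t‖ ^ 2 := by
    rw [Finset.mul_sum]
    have h2 := Finset.card_nsmul_le_sum V
      (fun v => 4 * ‖∑ t ∈ Θ, ((s t v : ℤ) : ℝ) • F t‖ ^ 2) (κ * ((A.det : ℤ) : ℝ)) fun v hv => by
        rw [hG]
        exact_mod_cast hbig v hv
    rw [nsmul_eq_mul] at h2
    exact h2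
  have h2 : (V.card : ℝ) * (κ * ((A.det : ℤ) : ℝ)) ≤
      4 * ((Θ.card + V.card * E) * (d * ((A.det : ℤ) : ℝ))) := by
    refine h1.trans (mul_le_mul_of_nonneg_left ?_ (by norm_num))
    refine hbes.trans (mul_le_mul_of_nonneg_left hA2 ?_)
    positivity
  have h3 : ((V.card : ℝ) * κ) * ((A.det : ℤ) : ℝ) ≤
      (4 * (Θ.card + V.card * E) * d) * ((A.det : ℤ) : ℝ) := by
    calc ((V.card : ℝ) * κ) * ((A.det : ℤ) : ℝ) = (V.card : ℝ) * (κ * ((A.det : ℤ) : ℝ)) := by ring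
      _ ≤ _ := h2
      _ = _ := by ring
  have h4 := le_of_mul_le_mul_right h3 hδ0
  exact_mod_cast h4

end Pool.Agent.Helper49.HS
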