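import Pool.Agent.Helper49.HS.Adj
import Pool.Agent.NPC.Dec
import Pool.Agent.H671R2.PolyAuto
import Pool.Agent.H687R2.IntPoly

/-!
# Computation of the determinant and of the adjugate of `1 + ∑ x xᵀ`
-/

set_option autoImplicit false

namespace Pool.Agent.Helper49.HS

open Matrix
open Pool.Agent.NPC

/-- The dot product of two lists. -/
def dotL (x y : List ℤ) : ℤ := (List.zipWith (fun a b => a * b) x y).sum

/-- The product of a matrix (a list of rows) and a vector. -/
def mv (C : List (List ℤ)) (x : List ℤ) : List ℤ := C.map fun r => dotL r x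

/-- The update of a determinant and an adjugate. -/
def upd (s : ℤ × List (List ℤ)) (x : List ℤ) : ℤ × List (List ℤ) :=
  (s.1 + dotL x (mv s.2 x), List.zipWith (fun r yi => List.zipWith (fun c yj =>
    ((s.1 + dotL x (mv s.2 x)) * c - yi * yj) / ((s.1.natAbs : ℕ) : ℤ)) r (mv s.2 x))
      s.2 (mv s.2 x))

/-- The identity matrix. -/
def ident (d : ℕ) : List (List ℤ) :=
  (List.range d).map fun i => (List.range d).map fun j => if i = j then 1 else 0

/-- The list of the first `d` entries. -/
def nrm (d : ℕ) (x : List ℤ) : List ℤ := (List.range d).map fun i => x.getD i 0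

/-- The determinant and the adjugate of `1 + ∑ x xᵀ`. -/
def mats (d : ℕ) (l : List (List ℤ)) : ℤ × List (List ℤ) :=
  (l.map (nrm d)).foldl upd (1, ident d)

/-- The value of the form given by a matrix. -/
def lev (d : ℕ) (C : List (List ℤ)) (x : List ℤ) : ℤ := dotL (nrm d x) (mv C (nrm d x))

variable {d : ℕ}

/-- The vector given by a list. -/
def toV (d : ℕ) (x : List ℤ) : Fin d → ℤ := fun i => x.getD i 0

/-- The list of rows of a matrix. -/
def mlst (M : Matrix (Fin d) (Fin d) ℤ) : List (List ℤ) := List.ofFn fun i => List.ofFn (M i)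

theorem nrm_eq (d : ℕ) (x : List ℤ) : nrm d x = List.ofFn (toV d x) := by
  refine List.ext_getElem (by simp [nrm]) fun i h1 h2 => ?_
  simp [nrm, toV]

theorem zipWith_ofFn {β γ δ : Type} (f : β → γ → δ) (x : Fin d → β) (y : Fin d → γ) :
    List.zipWith f (List.ofFn x) (List.ofFn y) = List.ofFn fun i => f (x i) (y i) := by
  refine List.ext_getElem (by simp) fun i h1 h2 => ?_
  simp

theorem dotL_ofFn (x y : Fin d → ℤ) : dotL (List.ofFn x) (List.ofFn y) = x ⬝ᵥ y := by
  unfold dotL
  rw [zipWith_ofFn, List.sum_ofFn]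
  rfl

theorem mv_ofFn (M : Matrix (Fin d) (Fin d) ℤ) (x : Fin d → ℤ) :
    mv (mlst M) (List.ofFn x) = List.ofFn (M *ᵥ x) := by
  unfold mv mlst
  rw [List.map_ofFn]
  congr 1
  funext i
  simp only [Function.comp_apply]
  rw [dotL_ofFn]
  rfl

theorem ident_eq (d : ℕ) : ident d = mlst (1 : Matrix (Fin d) (Fin d) ℤ) := by
  refine List.ext_getElem (by simp [ident, mlst]) fun i h1 h2 => ?_
  simp only [ident, mlst, List.getElem_map, List.getElem_range, List.getElem_ofFn]
  refine List.ext_getElem (by simp) fun j h3 h4 => ?_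
  simp [Matrix.one_apply]

theorem upd_spec (S : List (Fin d → ℤ)) (x : Fin d → ℤ) :
    upd ((gram S).det, mlst (gram S).adjugate) (List.ofFn x) =
      ((gram (S ++ [x])).det, mlst (gram (S ++ [x])).adjugate) := by
  have hd := gram_det_pos S
  have e1 : (gram S).det + dotL (List.ofFn x) (mv (mlst (gram S).adjugate) (List.ofFn x)) =
      (gram (S ++ [x])).det := by
    rw [mv_ofFn, dotL_ofFn, gram_append, det_add_vmv hd.ne']
  have e2 : (((gram S).det.natAbs : ℕ) : ℤ) = (gram S).det := by omega
  rw [mv_ofFn] at e1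
  unfold upd
  simp only [e1, e2, mv_ofFn]
  refine Prod.ext rfl ?_
  simp only
  rw [mlst, zipWith_ofFn, mlst]
  congr 1
  funext i
  rw [zipWith_ofFn]
  congr 1
  funext j
  have h1 := adj_add_vmv hd.ne' (gram_symm S) x (by
    rw [← gram_append]
    exact (gram_det_pos _).ne')
  rw [← gram_append] at h1
  have h2 := congrFun (congrFun h1 i) j
  simp only [Matrix.sub_apply, Matrix.smul_apply, vecMulVec_apply, smul_eq_mul] at h2
  rw [h2]
  exact Int.mul_ediv_cancel_left _ hd.ne'

theorem foldl_upd (S : List (Fin d → ℤ)) :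
    (S.map List.ofFn).foldl upd (1, ident d) = ((gram S).det, mlst (gram S).adjugate) := by
  induction S using List.reverseRecOn with
  | nil =>
    rw [List.map_nil, List.foldl_nil, gram_nil, ident_eq, Matrix.det_one, Matrix.adjugate_one]
  | append_singleton S x ih =>
    rw [List.map_append, List.foldl_append, ih, List.map_singleton, List.foldl_cons,
      List.foldl_nil, upd_spec]

/-- The matrices computed. -/
theorem mats_spec (l : List (List ℤ)) :
    mats d l = ((gram (l.map (toV d))).det, mlst (gram (l.map (toV d))).adjugate) := by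
  rw [← foldl_upd, List.map_map]
  unfold mats
  congr 1
  exact List.map_congr_left fun x _ => nrm_eq d x

theorem lev_spec (M : Matrix (Fin d) (Fin d) ℤ) (x : List ℤ) :
    lev d (mlst M) x = toV d x ⬝ᵥ (M *ᵥ toV d x) := by
  unfold lev
  rw [nrm_eq, mv_ofFn, dotL_ofFn]

/-! ### Sizes -/

theorem natAbs_gram_le (S : List (Fin d → ℤ)) {B : ℕ} (h : ∀ x ∈ S, ∀ i, (x i).natAbs ≤ B)
    (i j : Fin d) : (gram S i j).natAbs ≤ 1 + S.length * (B * B) := by
  induction S with
  | nil =>
    rw [gram_nil, Matrix.one_apply]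
    split_ifs <;> simp
  | cons x S ih =>
    rw [gram_cons, Matrix.add_apply, vecMulVec_apply]
    refine (Int.natAbs_add_le _ _).trans ?_
    have h1 := ih fun y hy => h y (List.mem_cons_of_mem _ hy)
    have h2 : (x i * x j).natAbs ≤ B * B := by
      rw [Int.natAbs_mul]
      exact Nat.mul_le_mul (h x List.mem_cons_self i) (h x List.mem_cons_self j)
    rw [List.length_cons]
    calc _ ≤ (1 + S.length * (B * B)) + B * B := Nat.add_le_add h1 h2
      _ = _ := by ring

theorem natAbs_det_le {M : Matrix (Fin d) (Fin d) ℤ} {B : ℕ} (h : ∀ i j, (M i j).natAbs ≤ B) :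
    M.det.natAbs ≤ d.factorial * B ^ d := by
  have h1 := Matrix.det_le (A := M) (abv := AbsoluteValue.abs) (x := (B : ℤ)) fun i j => by
    simp only [AbsoluteValue.abs_apply]
    rw [Int.abs_eq_natAbs]
    exact_mod_cast h i j
  simp only [AbsoluteValue.abs_apply, Fintype.card_fin, nsmul_eq_mul] at h1
  have h2 : ((M.det.natAbs : ℕ) : ℤ) ≤ ((d.factorial * B ^ d : ℕ) : ℤ) := by
    rw [Int.natCast_natAbs]
    push_cast
    exact h1
  exact_mod_cast h2

theorem natAbs_adj_le {M : Matrix (Fin d) (Fin d) ℤ} {B : ℕ} (hB : 1 ≤ B)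
    (h : ∀ i j, (M i j).natAbs ≤ B) (i j : Fin d) :
    (M.adjugate i j).natAbs ≤ d.factorial * B ^ d := by
  rw [Matrix.adjugate_apply]
  refine natAbs_det_le fun a b => ?_
  rw [Matrix.updateRow_apply]
  split_ifs
  · rw [Pi.single_apply]
    split_ifs
    · simpa using hB
    · simp
  · exact h a b

end Pool.Agent.Helper49.HS
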