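import Pool.Agent.Helper49.HS.Defs
import Pool.Agent.Helper49.HS.Mats
import Pool.Agent.Helper49.KM.Cum
import Pool.Agent.H623R2.PS.Savitch

/-!
# Halfspaces for the strings of bounded length, and reductions
-/

set_option autoImplicit false

namespace Pool.Agent.Helper49.HS

open Pool.Agent.NPC Matrix
open Pool.Agent.H623R2.PS (poly_replicate)

/-- Linear separation for all strings of length at most `N`. -/
def CumH (ψ : ℕ → List Bool → List ℤ) (dp : Polynomial ℕ) (L : Set (List Bool)) : Prop :=
  NPC.Poly (fun a : List Unit × List Bool => ψ a.1.length a.2) ∧ (∀ N, 1 ≤ dp.eval N) ∧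
    ∀ N : ℕ, ∃ z : Fin (dp.eval N) → ℝ, ∀ x : List Bool, x.length ≤ N →
      (x ∈ L → 1 ≤ z ⬝ᵥ rv (toV _ (ψ N x))) ∧ (x ∉ L → z ⬝ᵥ rv (toV _ (ψ N x)) ≤ -1)

theorem finite_eps {β : Type} {s : Set β} (hs : s.Finite) (v : β → ℝ) (hv : ∀ x ∈ s, 0 < v x) :
    ∃ ε : ℝ, 0 < ε ∧ ∀ x ∈ s, ε ≤ v x := by
  induction s, hs using Set.Finite.induction_on with
  | empty => exact ⟨1, one_pos, fun x hx => absurd hx (Set.notMem_empty x)⟩
  | @insert a s _ _ ih =>
    obtain ⟨ε, h1, h2⟩ := ih fun x hx => hv x (Set.mem_insert_of_mem _ hx)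
    refine ⟨min ε (v a), lt_min h1 (hv a (Set.mem_insert _ _)), fun x hx => ?_⟩
    rcases Set.mem_insert_iff.1 hx with h | h
    · rw [h]
      exact min_le_right _ _
    · exact (min_le_left _ _).trans (h2 x h)

theorem dot_toV (d : ℕ) (z : ℕ → ℝ) (l : List ℤ) :
    (fun i : Fin d => z i) ⬝ᵥ rv (toV d l) =
      ∑ i ∈ Finset.range d, z i * ((l.getD i 0 : ℤ) : ℝ) := by
  simp only [dotProduct, rv, toV]
  exact Fin.sum_univ_eq_sum_range (fun i => z i * ((l.getD i 0 : ℤ) : ℝ)) d

theorem sum_getD_le (l : List ℤ) (z : ℕ → ℝ) {n : ℕ} (h : l.length ≤ n) :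
    ∑ i ∈ Finset.range n, z i * ((l.getD i 0 : ℤ) : ℝ) =
      ∑ i ∈ Finset.range l.length, z i * ((l.getD i 0 : ℤ) : ℝ) := by
  symm
  refine Finset.sum_subset (fun i hi => ?_) fun i _ hi => ?_
  · rw [Finset.mem_range] at hi ⊢
    omega
  · rw [Finset.mem_range, not_lt] at hi
    rw [List.getD_eq_getElem?_getD, List.getElem?_eq_none hi]
    simp

theorem cumH_of_halfspace {L : Set (List Bool)} (h : Halfspace L) : ∃ ψ dp, CumH ψ dp L := by
  classical
  obtain ⟨φ, ⟨F, hF, hFφ⟩, hw⟩ := h
  have hφ : NPC.Poly φ := by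
    have h1 : PC (id : List Bool → List Bool) (id : List Bool → List Bool) F :=
      H642R2.TMSim.polyTime_toPC hF
    have h2 : NPC.Poly (fun x : List Bool => bits (φ x)) := by
      have h3 : NPC.Poly F := PIso.poly_iff.2 hF
      exact h3.congr fun x => hFφ x
    have h4 : NPC.Poly (fun x : List Bool => unbits (List ℤ) (bits (φ x))) := poly_unbits.comp h2
    have h5 := NPC.Poly.optGetD (o := fun x : List Bool => unbits (List ℤ) (bits (φ x)))
      (g := fun _ => ([] : List ℤ)) h4 (NPC.Poly.const _)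
    exact h5.congr fun x => by rw [unbits_bits]; rfl
  obtain ⟨r, hr⟩ := hφ.sz_le
  set Dp : Polynomial ℕ := r.comp (Polynomial.C 4 * Polynomial.X + 1) + 1 with hDp
  have hDe : ∀ N, Dp.eval N = r.eval (4 * N + 1) + 1 := fun N => by simp [hDp]
  have hφl : ∀ (x : List Bool) N, x.length ≤ N → (φ x).length + 1 ≤ Dp.eval N := by
    intro x N hx
    have e1 := hr x
    have e2 := length_lt_sz (φ x)
    have e3 := sz_listBool_le x
    have e4 : r.eval (sz x) ≤ r.eval (4 * N + 1) := eval_mono r (by omega)
    rw [hDe]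
    omega
  refine ⟨fun N x => List.replicate (x.length * Dp.eval N) 0 ++ ((-1) :: φ x),
    (Polynomial.X + 1) * Dp, ?_, ?_, ?_⟩
  · have e1 : UPoly (fun a : List Unit × List Bool => a.2.length * Dp.eval a.1.length) :=
      UPoly.mul (UPoly.length (NPC.Poly.snd NPC.Poly.id))
        ((UPoly.length (NPC.Poly.fst NPC.Poly.id)).eval Dp)
    exact NPC.Poly.append (poly_replicate e1 0) (NPC.Poly.cons (NPC.Poly.const (-1))
      (hφ.comp (NPC.Poly.snd NPC.Poly.id)))
  · intro N
    rw [Polynomial.eval_mul]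
    refine Nat.mul_pos (by simp) ?_
    rw [hDe]
    omega
  · intro N
    set D := Dp.eval N with hD
    have hD0 : 0 < D := by
      rw [hD, hDe]
      omega
    have hdN : ((Polynomial.X + 1) * Dp).eval N = (N + 1) * D := by simp [hD]
    choose w hw2 using hw
    have hε : ∀ n : ℕ, ∃ ε : ℝ, 0 < ε ∧ ∀ x : List Bool, x.length = n → x ∈ L →
        ε ≤ ∑ i ∈ Finset.range (φ x).length, w n i * ((φ x).getD i 0 : ℤ) := by
      intro n
      obtain ⟨ε, h1, h2⟩ := finite_eps (s := {x : List Bool | x.length = n ∧ x ∈ L})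
        ((List.finite_length_eq Bool n).subset fun x hx => hx.1)
        (fun x => ∑ i ∈ Finset.range (φ x).length, w n i * ((φ x).getD i 0 : ℤ))
        fun x hx => (hw2 n x hx.1).1 hx.2
      exact ⟨ε, h1, fun x hx hxL => h2 x ⟨hx, hxL⟩⟩
    choose ε hε0 hε1 using hε
    -- the weights for each length
    set zc : ℕ → ℕ → ℝ := fun n i => if i = 0 then 1 else 2 / ε n * w n (i - 1) with hzc
    refine ⟨fun i => zc (i / D) (i % D), fun x hx => ?_⟩
    have hval : (fun i : Fin (((Polynomial.X + 1) * Dp).eval N) => zc (i / D) (i % D)) ⬝ᵥ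
        rv (toV _ (List.replicate (x.length * D) 0 ++ ((-1) :: φ x))) =
        -1 + 2 / ε x.length *
          ∑ i ∈ Finset.range (φ x).length, w x.length i * ((φ x).getD i 0 : ℤ) := by
      rw [dot_toV _ (fun i => zc (i / D) (i % D)), hdN]
      obtain ⟨k, hk⟩ : ∃ k, N = x.length + k := ⟨N - x.length, by omega⟩
      have e1 : (N + 1) * D = x.length * D + (D + k * D) := by rw [hk]; ring
      rw [e1, Finset.sum_range_add]
      have e2 : ∑ i ∈ Finset.range (x.length * D), zc (i / D) (i % D) *
          (((List.replicate (x.length * D) (0 : ℤ) ++ ((-1) :: φ x)).getD i 0 : ℤ) : ℝ) = 0 := by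
        refine Finset.sum_eq_zero fun i hi => ?_
        rw [Finset.mem_range] at hi
        rw [List.getD_append _ _ _ _ (by simpa using hi), List.getD_replicate _ hi]
        simp
      rw [e2, zero_add]
      have e3 : ∀ i, (List.replicate (x.length * D) (0 : ℤ) ++ ((-1) :: φ x)).getD
          (x.length * D + i) 0 = ((-1) :: φ x).getD i 0 := by
        intro i
        rw [List.getD_append_right _ _ _ _ (by simp)]
        simp
      have e4 : ∑ i ∈ Finset.range (D + k * D), zc ((x.length * D + i) / D)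
          ((x.length * D + i) % D) *
          (((List.replicate (x.length * D) (0 : ℤ) ++ ((-1) :: φ x)).getD
            (x.length * D + i) 0 : ℤ) : ℝ) =
          ∑ i ∈ Finset.range ((φ x).length + 1), zc x.length i *
            ((((-1) :: φ x).getD i 0 : ℤ) : ℝ) := by
        have hlen : (φ x).length + 1 ≤ D := hφl x N hx
        rw [Finset.sum_congr rfl fun i _ => by rw [e3 i]]
        symm
        refine Finset.sum_subset_zero_on_sdiff (fun i hi => ?_) (fun i hi => ?_) fun i hi => ?_
        · rw [Finset.mem_range] at hi ⊢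
          omega
        · rw [Finset.mem_sdiff, Finset.mem_range, Finset.mem_range, not_lt] at hi
          rw [List.getD_eq_getElem?_getD, List.getElem?_eq_none (by simpa using hi.2)]
          simp
        · rw [Finset.mem_range] at hi
          have h1 : (x.length * D + i) / D = x.length := by
            rw [mul_comm, Nat.mul_add_div hD0, Nat.div_eq_of_lt (by omega), add_zero]
          have h2 : (x.length * D + i) % D = i := by
            rw [mul_comm, Nat.mul_add_mod, Nat.mod_eq_of_lt (by omega)]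
          rw [h1, h2]
      rw [e4, Finset.sum_range_succ']
      simp only [List.getD_cons_succ, List.getD_cons_zero, hzc, if_true, Nat.succ_ne_zero,
        if_false, Nat.add_sub_cancel]
      rw [Finset.mul_sum, add_comm]
      congr 1
      · push_cast
        ring
      · refine Finset.sum_congr rfl fun i _ => ?_
        ring
    simp only
    rw [hval]
    have h0 := hε0 x.length
    constructor
    · intro hxL
      have h1 := hε1 x.length x rfl hxL
      have h2 : 2 / ε x.length * ε x.length ≤ 2 / ε x.length *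
          ∑ i ∈ Finset.range (φ x).length, w x.length i * ((φ x).getD i 0 : ℤ) :=
        mul_le_mul_of_nonneg_left h1 (by positivity)
      rw [div_mul_cancel₀ _ h0.ne'] at h2
      linarith
    · intro hxL
      have h1 : ∑ i ∈ Finset.range (φ x).length, w x.length i * ((φ x).getD i 0 : ℤ) ≤ 0 := by
        by_contra hcon
        exact hxL ((hw2 x.length x rfl).2 (not_le.1 hcon))
      have h2 : 2 / ε x.length *
          ∑ i ∈ Finset.range (φ x).length, w x.length i * ((φ x).getD i 0 : ℤ) ≤ 0 :=
        mul_nonpos_of_nonneg_of_nonpos (by positivity) h1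
      linarith

/-- Separation passes to reducible languages. -/
theorem CumH.of_reduces {ψ : ℕ → List Bool → List ℤ} {dp : Polynomial ℕ}
    {A L : Set (List Bool)} (h : CumH ψ dp A) (hr : Reduces L A) : ∃ ψ' dp', CumH ψ' dp' L := by
  obtain ⟨f, hf, hfA⟩ := hr
  obtain ⟨hψ, hd1, hsep⟩ := h
  have hfp : NPC.Poly f := PIso.poly_iff.2 hf
  obtain ⟨r, hr⟩ := hfp.sz_le
  set ρ : Polynomial ℕ := r.comp (Polynomial.C 4 * Polynomial.X + 1) with hρ
  refine ⟨fun N x => ψ (ρ.eval N) (f x), dp.comp ρ, ?_, ?_, ?_⟩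
  · have e1 : NPC.Poly (fun a : List Unit × List Bool =>
        (List.replicate (ρ.eval a.1.length) (), f a.2)) :=
      NPC.Poly.pair ((UPoly.length (NPC.Poly.fst NPC.Poly.id)).eval ρ)
        (hfp.comp (NPC.Poly.snd NPC.Poly.id))
    refine (hψ.comp e1).congr fun a => ?_
    simp only [List.length_replicate]
  · intro N
    rw [Polynomial.eval_comp]
    exact hd1 _
  · intro N
    have hlen : ∀ x : List Bool, x.length ≤ N → (f x).length ≤ ρ.eval N := by
      intro x hx
      have e1 := hr x
      have e2 := length_lt_sz (f x)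
      have e3 := sz_listBool_le x
      have e4 : r.eval (sz x) ≤ r.eval (4 * N + 1) := eval_mono r (by omega)
      simp only [hρ, Polynomial.eval_comp, Polynomial.eval_add, Polynomial.eval_mul,
        Polynomial.eval_C, Polynomial.eval_X, Polynomial.eval_one]
      omega
    obtain ⟨z, hz⟩ := hsep (ρ.eval N)
    rw [Polynomial.eval_comp]
    refine ⟨z, fun x hx => ?_⟩
    obtain ⟨e1, e2⟩ := hz (f x) (hlen x hx)
    exact ⟨fun hx' => e1 ((hfA x).1 hx'), fun hx' => e2 fun h => hx' ((hfA x).2 h)⟩

end Pool.Agent.Helper49.HS
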