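import Mathlib
import Pool.Agent.NPC.Defs
import Pool.Agent.NPC.Classes
import Pool.Agent.H623R2.PS.Defs

/-!
# Halfspaces over features computed in polynomial time
-/

set_option autoImplicit false

namespace Pool.Agent.Helper49.HS

open Pool.Agent.NPC

/-- `L` is a halfspace over integer features computed in polynomial time: there is a function `φ`,
computed in polynomial time, that sends each string `x` to a list of integers, and for each length
`n` there are real numbers `w 0, w 1, …`, such that a string `x` of length `n` is in `L` if and only
if the sum of the products `w i * (φ x) i` is positive. The real numbers `w i` are arbitrary. -/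
def Halfspace (L : Set (List Bool)) : Prop :=
  ∃ φ : List Bool → List ℤ,
    (∃ F : List Bool → List Bool, PolyTime F ∧ ∀ x, F x = bits (φ x)) ∧
    ∀ n : ℕ, ∃ w : ℕ → ℝ, ∀ x : List Bool, x.length = n →
      (x ∈ L ↔ 0 < ∑ i ∈ Finset.range (φ x).length, w i * ((φ x).getD i 0 : ℤ))

end Pool.Agent.Helper49.HS
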