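import Pool.Agent.Helper49.HS.Quad

/-!
# The determinant, the energy of the signed sum and the number of large sums
-/

set_option autoImplicit false

namespace Pool.Agent.Helper49.HS

open Matrix Finset

variable {d : ℕ}

theorem gram_mul_adj (S : List (Fin d → ℤ)) :
    rm (gram S) * rm (gram S).adjugate = (((gram S).det : ℤ) : ℝ) • 1 := by
  rw [← rm_adj, Matrix.mul_adjugate, rm_det]

theorem rm_gram_symm (S : List (Fin d → ℤ)) : (rm (gram S))ᵀ = rm (gram S) := by
  unfold rm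
  rw [← Matrix.transpose_map, gram_symm]

theorem gram_cs (S : List (Fin d → ℤ)) (z v : Fin d → ℝ) :
    ((gram S).det : ℝ) * (z ⬝ᵥ v) ^ 2 ≤
      (z ⬝ᵥ (rm (gram S) *ᵥ z)) * (v ⬝ᵥ (rm (gram S).adjugate *ᵥ v)) :=
  cs (gram_posDef S).posSemidef (rm_gram_symm S) (by exact_mod_cast gram_det_pos S)
    (gram_mul_adj S) z v

theorem trace_gram (S : List (Fin d → ℤ)) :
    (gram S).trace = d + (S.map fun x => x ⬝ᵥ x).sum := by
  induction S with
  | nil => simp [gram_nil]
  | cons x S ih =>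
    rw [gram_cons, Matrix.trace_add, ih, List.map_cons, List.sum_cons, Matrix.trace_vecMulVec]
    ring

/-- The determinant is at most a power of the trace. -/
theorem det_le_trace_pow (S : List (Fin d → ℤ)) : (gram S).det ≤ (gram S).trace ^ d := by
  have hP := gram_posDef S
  have hH := hP.isHermitian
  have h1 : ((gram S).det : ℝ) = ∏ i, hH.eigenvalues i := by
    rw [← rm_det, hH.det_eq_prod_eigenvalues]
    simp
  have h2 : ((gram S).trace : ℝ) = ∑ i, hH.eigenvalues i := by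
    have e1 : (rm (gram S)).trace = ((gram S).trace : ℝ) := by
      simp [Matrix.trace, rm_apply]
    rw [← e1, hH.trace_eq_sum_eigenvalues]
    simp
  have h3 : ∀ i, 0 ≤ hH.eigenvalues i := fun i => hP.posSemidef.eigenvalues_nonneg i
  have h4 : ((gram S).det : ℝ) ≤ ((gram S).trace : ℝ) ^ d := by
    rw [h1, h2]
    calc ∏ i, hH.eigenvalues i ≤ ∏ _i : Fin d, ∑ j, hH.eigenvalues j :=
          Finset.prod_le_prod (fun i _ => h3 i) fun i _ =>
            Finset.single_le_sum (fun j _ => h3 j) (Finset.mem_univ i)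
      _ = _ := by rw [Finset.prod_const, Finset.card_univ, Fintype.card_fin]
  exact_mod_cast h4

variable {τ : Type}

/-- The signed sum. -/
def sgsum (S : List τ) (x : τ → Fin d → ℤ) (s : τ → ℤ) : Fin d → ℤ :=
  fun i => (S.map fun t => s t * x t i).sum

theorem rv_sgsum_dot (S : List τ) (x : τ → Fin d → ℤ) (s : τ → ℤ) (z : Fin d → ℝ) :
    z ⬝ᵥ rv (sgsum S x s) = (S.map fun t => (s t : ℝ) * (z ⬝ᵥ rv (x t))).sum := by
  induction S with
  | nil => simp [sgsum, rv, dotProduct]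
  | cons t S ih =>
    have e1 : rv (sgsum (t :: S) x s) = (s t : ℝ) • rv (x t) + rv (sgsum S x s) := by
      funext i
      simp [sgsum, rv]
    rw [e1, dotProduct_add, ih, dotProduct_smul, List.map_cons, List.sum_cons, smul_eq_mul]

/-- The energy of the signed sum is large. -/
theorem energy {S : List τ} (hS : S ≠ []) {x : τ → Fin d → ℤ} {s : τ → ℤ} {z : Fin d → ℝ}
    (hz : z ⬝ᵥ z ≤ (S.map fun t => (z ⬝ᵥ rv (x t)) ^ 2).sum) (hsep : ∀ t ∈ S, 1 ≤ (s t : ℝ) * (z ⬝ᵥ rv (x t)))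
    (hs : ∀ t ∈ S, s t * s t = 1) {κ : ℕ} (hκ : 0 < κ)
    (hlev : ∀ t ∈ S, κ * qf (gram (S.map x)) (x t) ≤ (gram (S.map x)).det) :
    κ * (gram (S.map x)).det ≤ 4 * qf (gram (S.map x)) (sgsum S x s) := by
  set A := gram (S.map x) with hA
  set δ : ℝ := ((A.det : ℤ) : ℝ) with hδ
  have hδ0 : 0 < δ := by
    rw [hδ]
    exact_mod_cast gram_det_pos _
  set a : τ → ℝ := fun t => (s t : ℝ) * (z ⬝ᵥ rv (x t)) with ha
  set F : ℝ := (S.map fun t => a t ^ 2).sum with hF
  set G : ℝ := (S.map fun t => a t).sum with hG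
  have hss : ∀ t ∈ S, ((s t : ℤ) : ℝ) ^ 2 = 1 := fun t ht => by
    have := hs t ht
    rw [sq]
    exact_mod_cast this
  have ha2 : ∀ t ∈ S, (z ⬝ᵥ rv (x t)) ^ 2 = a t ^ 2 := fun t ht => by
    rw [ha]
    simp only
    rw [mul_pow, hss t ht, one_mul]
  have hQ : z ⬝ᵥ (rm A *ᵥ z) = z ⬝ᵥ z + F := by
    rw [hA, gram_form, List.map_map, hF]
    congr 1
    refine congrArg List.sum (List.map_congr_left fun t ht => ?_)
    exact ha2 t ht
  have hF1 : 1 ≤ F := by
    obtain ⟨t, ht⟩ := List.exists_mem_of_ne_nil S hS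
    have h1 : a t ^ 2 ≤ F := List.single_le_sum (fun b hb => by
      obtain ⟨t', _, rfl⟩ := List.mem_map.1 hb
      positivity) _ (List.mem_map_of_mem ht)
    have h2 := hsep t ht
    have h3 : (1 : ℝ) ≤ a t ^ 2 := by
      have : (1 : ℝ) ≤ a t := h2
      nlinarith
    linarith
  have hzF : z ⬝ᵥ z ≤ F := by
    refine hz.trans (le_of_eq ?_)
    rw [hF]
    exact congrArg List.sum (List.map_congr_left fun t ht => ha2 t ht)
  have hQ2 : z ⬝ᵥ (rm A *ᵥ z) ≤ 2 * F := by rw [hQ]; linarith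
  have hκ0 : (0 : ℝ) < κ := by exact_mod_cast hκ
  have h1 : ∀ t ∈ S, κ * a t ^ 2 ≤ 2 * F := by
    intro t ht
    have h2 := gram_cs (S.map x) z (rv (x t))
    rw [← hA, ← qf_cast, ha2 t ht] at h2
    have h3 : (κ : ℝ) * (qf A (x t) : ℤ) ≤ δ := by
      rw [hδ]
      exact_mod_cast hlev t ht
    have h4 : (0 : ℝ) ≤ (qf A (x t) : ℤ) := by
      exact_mod_cast qf_nonneg (S.map x) (x t)
    have h5 : δ * a t ^ 2 ≤ 2 * F * (qf A (x t) : ℤ) :=
      h2.trans (mul_le_mul_of_nonneg_right hQ2 h4)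
    have h6 : δ * (κ * a t ^ 2) ≤ δ * (2 * F) := by
      calc δ * (κ * a t ^ 2) = κ * (δ * a t ^ 2) := by ring
        _ ≤ κ * (2 * F * (qf A (x t) : ℤ)) := mul_le_mul_of_nonneg_left h5 hκ0.le
        _ = 2 * F * (κ * (qf A (x t) : ℤ)) := by ring
        _ ≤ 2 * F * δ := mul_le_mul_of_nonneg_left h3 (by positivity)
        _ = δ * (2 * F) := by ring
    exact le_of_mul_le_mul_left h6 hδ0
  set M0 : ℝ := Real.sqrt (2 * F / κ) with hM0
  have hM0sq : M0 ^ 2 = 2 * F / κ := Real.sq_sqrt (by positivity)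
  have hM00 : 0 ≤ M0 := Real.sqrt_nonneg _
  have h2 : ∀ t ∈ S, a t ≤ M0 := by
    intro t ht
    refine Real.le_sqrt_of_sq_le ?_
    rw [le_div_iff₀ hκ0, mul_comm]
    exact h1 t ht
  have h3 : F ≤ M0 * G := by
    rw [hF, hG, ← List.sum_map_mul_left]
    refine List.sum_le_sum fun t ht => ?_
    rw [sq]
    exact mul_le_mul_of_nonneg_right (h2 t ht) (le_trans zero_le_one (hsep t ht))
  have hG0 : 0 ≤ G := List.sum_nonneg fun b hb => by
    obtain ⟨t, ht, rfl⟩ := List.mem_map.1 hb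
    exact le_trans zero_le_one (hsep t ht)
  have h4 : κ * F ≤ 2 * G ^ 2 := by
    have h5 : F ^ 2 ≤ 2 * F / κ * G ^ 2 := by
      rw [← hM0sq, ← mul_pow]
      exact pow_le_pow_left₀ (by linarith) h3 2
    have h6 : κ * F ^ 2 ≤ 2 * F * G ^ 2 := by
      have := mul_le_mul_of_nonneg_left h5 hκ0.le
      calc κ * F ^ 2 ≤ κ * (2 * F / κ * G ^ 2) := this
        _ = 2 * F * G ^ 2 := by field_simp
    have h7 : F * (κ * F) ≤ F * (2 * G ^ 2) := by
      calc F * (κ * F) = κ * F ^ 2 := by ring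
        _ ≤ 2 * F * G ^ 2 := h6
        _ = _ := by ring
    exact le_of_mul_le_mul_left h7 (by linarith)
  have h5 := gram_cs (S.map x) z (rv (sgsum S x s))
  rw [← hA, ← qf_cast, rv_sgsum_dot] at h5
  have h6 : (0 : ℝ) ≤ (qf A (sgsum S x s) : ℤ) := by
    exact_mod_cast qf_nonneg (S.map x) _
  have h7 : δ * G ^ 2 ≤ 2 * F * (qf A (sgsum S x s) : ℤ) :=
    h5.trans (mul_le_mul_of_nonneg_right hQ2 h6)
  have h8 : F * (κ * δ) ≤ F * (4 * (qf A (sgsum S x s) : ℤ)) := by
    calc F * (κ * δ) = δ * (κ * F) := by ring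
      _ ≤ δ * (2 * G ^ 2) := mul_le_mul_of_nonneg_left h4 hδ0.le
      _ = 2 * (δ * G ^ 2) := by ring
      _ ≤ 2 * (2 * F * (qf A (sgsum S x s) : ℤ)) := mul_le_mul_of_nonneg_left h7 (by norm_num)
      _ = _ := by ring
  have h9 : κ * δ ≤ 4 * (qf A (sgsum S x s) : ℤ) := le_of_mul_le_mul_left h8 (by linarith)
  rw [hδ] at h9
  exact_mod_cast h9

/-- The sum of the leverages. -/
theorem sum_qf_le (S : List (Fin d → ℤ)) :
    (S.map fun x => qf (gram S) x).sum ≤ d * (gram S).det := by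
  have key : ∀ (C : Matrix (Fin d) (Fin d) ℤ) (T : List (Fin d → ℤ)),
      (T.map fun x => x ⬝ᵥ (C *ᵥ x)).sum = (C * (gram T - 1)).trace := by
    intro C T
    induction T with
    | nil => simp [gram_nil]
    | cons x T ih =>
      rw [List.map_cons, List.sum_cons, ih, gram_cons]
      have e1 : C * (gram T + vecMulVec x x - 1) = vecMulVec (C *ᵥ x) x + C * (gram T - 1) := by
        rw [← Matrix.mul_vecMulVec, ← Matrix.mul_add]
        congr 1
        abel
      rw [e1, Matrix.trace_add, Matrix.trace_vecMulVec, dotProduct_comm]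
  have h1 := key (gram S).adjugate S
  have h2 : (gram S).adjugate * (gram S - 1) = (gram S).det • 1 - (gram S).adjugate := by
    rw [Matrix.mul_sub, Matrix.adjugate_mul, Matrix.mul_one]
  unfold qf
  rw [h1, h2, Matrix.trace_sub, Matrix.trace_smul, Matrix.trace_one, Fintype.card_fin, smul_eq_mul]
  have h3 : 0 ≤ (gram S).adjugate.trace := by
    have h4 := (rm_adj_posDef (S := S)).posSemidef.trace_nonneg
    have e1 : (rm (gram S).adjugate).trace = ((gram S).adjugate.trace : ℝ) := by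
      simp [Matrix.trace, rm_apply]
    rw [e1] at h4
    exact_mod_cast h4
  linarith [mul_comm (gram S).det (d : ℤ)]

end Pool.Agent.Helper49.HS
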