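import Pool.Agent.Helper49.RH.Gen

/-!
# Hidden strings whose labels form a halfspace can be enumerated in polynomial time
-/

set_option autoImplicit false

namespace Pool.Agent.Helper49.HS

open Pool.Agent.NPC Matrix
open Pool.Agent.H579R2.Spt (sgn tests mem_tests lab prm prm_spec prm_poly two_pow_size_poly)
open Pool.Agent.Helper49.KM (two_pow_size_le)
open Pool.Agent.Helper49.RH (sees_gen trace_gen)

section

variable (dp eN ℓp : Polynomial ℕ)

/-- A bound for the lengths of the queries. -/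
noncomputable def PNE : Polynomial ℕ :=
  Polynomial.X + Polynomial.C 3 * (Polynomial.C 4 * Polynomial.X + Polynomial.C 1) +
    (Polynomial.C 4 * ℓp + Polynomial.C 1) + Polynomial.C 5

/-- The dimension. -/
noncomputable def dE : Polynomial ℕ := dp.comp (PNE ℓp)

/-- The size of the features. -/
noncomputable def eE : Polynomial ℕ := eN.comp (PNE ℓp)

/-- The exponent of the factor of the features. -/
noncomputable def hXE : Polynomial ℕ :=
  Polynomial.C 3 * dE dp ℓp + dE dp ℓp * dE dp ℓp + eE eN ℓp * dE dp ℓp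

/-- The exponent of the bound for the trace. -/
noncomputable def lamE : Polynomial ℕ :=
  Polynomial.C 2 * Polynomial.X + dE dp ℓp + Polynomial.C 2 * eE eN ℓp +
    Polynomial.C 2 * hXE dp eN ℓp + Polynomial.C 1

/-- The lower bound for the prime of the tests. -/
noncomputable def PPE : Polynomial ℕ :=
  Polynomial.C 8 * dE dp ℓp * ℓp * (dE dp ℓp * lamE dp eN ℓp + Polynomial.C 1) + Polynomial.C 1

/-- The bound for all the numbers in the queries. -/
noncomputable def PBE : Polynomial ℕ := Polynomial.C 4 * PPE dp eN ℓp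

/-- The prime of the tests. -/
noncomputable def prE (b : ℕ) : ℕ := prm ((PPE dp eN ℓp).eval b)

variable {α : Type} [TEnc α]

/-- The features of a query. -/
noncomputable def vfE (ψ : ℕ → List Bool → List ℤ) (C : ℕ) (a : α) (j : ℕ) (t : ℕ × ℕ) : List ℤ :=
  (ψ ((PNE ℓp).eval (sz a + C)) (bits ((a, (prE dp eN ℓp (sz a + C), (j, t))) :
    α × (ℕ × (ℕ × (ℕ × ℕ)))))).map fun c => 2 ^ ((hXE dp eN ℓp).eval (sz a + C)) * c

/-- The candidates. -/
noncomputable def candE (ψ : ℕ → List Bool → List ℤ) (ℓ : α → ℕ) (C : ℕ) (a : α) :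
    List (List Bool) :=
  level (keep (vfE dp eN ℓp ψ C a) ((dE dp ℓp).eval (sz a + C))
    (8 * (dE dp ℓp).eval (sz a + C) * (2 ^ Nat.size (prE dp eN ℓp (sz a + C)) * ℓ a))
    (prE dp eN ℓp (sz a + C)) (2 ^ Nat.size (prE dp eN ℓp (sz a + C))))
    (prE dp eN ℓp (sz a + C)) (ℓ a)

theorem uPoly_sz : UPoly (fun a : α => sz a) := by
  have h1 : UPoly (fun a : α => (bits a).length) :=
    UPoly.length (H579R2.Spt.bits_poly.comp (NPC.Poly.id (α := α)))
  refine h1.congr fun a => ?_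
  simp only [bits_length]

theorem candE_poly {ψ : ℕ → List Bool → List ℤ} {ℓ : α → ℕ} (hℓ : UPoly ℓ) (C : ℕ)
    (hψ : NPC.Poly (fun a : List Unit × List Bool => ψ a.1.length a.2)) :
    NPC.Poly (candE dp eN ℓp ψ ℓ C) := by
  have hb : UPoly (fun a : α => sz a + C) := uPoly_sz.add (UPoly.const C)
  have hP : UPoly (fun a : α => prE dp eN ℓp (sz a + C)) := prm_poly (hb.eval (PPE dp eN ℓp))
  have hT : UPoly (fun a : α => 2 ^ Nat.size (prE dp eN ℓp (sz a + C))) := two_pow_size_poly hP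
  have hd : UPoly (fun a : α => (dE dp ℓp).eval (sz a + C)) := hb.eval (dE dp ℓp)
  have hκ : UPoly (fun a : α => 8 * (dE dp ℓp).eval (sz a + C) *
      (2 ^ Nat.size (prE dp eN ℓp (sz a + C)) * ℓ a)) :=
    UPoly.mul (UPoly.mul (UPoly.const 8) hd) (UPoly.mul hT hℓ)
  have hvf : NPC.Poly (fun q : α × ℕ × ℕ × ℕ => vfE dp eN ℓp ψ C q.1 q.2.1 q.2.2) := by
    unfold vfE
    have e1 : NPC.Poly (fun q : α × ℕ × ℕ × ℕ => q.1) := NPC.Poly.fst NPC.Poly.id
    have e2 : NPC.Poly (fun q : α × ℕ × ℕ × ℕ =>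
        bits ((q.1, (prE dp eN ℓp (sz q.1 + C), (q.2.1, q.2.2))) : α × (ℕ × (ℕ × (ℕ × ℕ))))) :=
      H579R2.Spt.bits_poly.comp (NPC.Poly.pair e1 (NPC.Poly.pair (hP.toPoly.comp e1)
        (NPC.Poly.pair (NPC.Poly.fst (NPC.Poly.snd NPC.Poly.id))
          (NPC.Poly.snd (NPC.Poly.snd NPC.Poly.id)))))
    have e3 : NPC.Poly (fun q : α × ℕ × ℕ × ℕ => (List.replicate ((PNE ℓp).eval (sz q.1 + C)) (),
        bits ((q.1, (prE dp eN ℓp (sz q.1 + C), (q.2.1, q.2.2))) :
          α × (ℕ × (ℕ × (ℕ × ℕ)))))) :=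
      NPC.Poly.pair ((hb.comp e1).eval (PNE ℓp)) e2
    have e4 : NPC.Poly (fun q : α × ℕ × ℕ × ℕ => ψ ((PNE ℓp).eval (sz q.1 + C))
        (bits ((q.1, (prE dp eN ℓp (sz q.1 + C), (q.2.1, q.2.2))) :
          α × (ℕ × (ℕ × (ℕ × ℕ)))))) :=
      (hψ.comp e3).congr fun q => by simp only [List.length_replicate]
    refine NPC.Poly.map (F := fun (q : α × ℕ × ℕ × ℕ) c =>
      2 ^ ((hXE dp eN ℓp).eval (sz q.1 + C)) * c) e4 ?_
    refine NPC.Poly.imul (NPC.Poly.ipow (NPC.Poly.const 2) ?_) (NPC.Poly.snd NPC.Poly.id)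
    exact (hb.comp (NPC.Poly.fst (NPC.Poly.fst NPC.Poly.id))).eval (hXE dp eN ℓp)
  unfold candE
  refine level_poly (K := fun a : α => keep (vfE dp eN ℓp ψ C a) ((dE dp ℓp).eval (sz a + C))
    (8 * (dE dp ℓp).eval (sz a + C) * (2 ^ Nat.size (prE dp eN ℓp (sz a + C)) * ℓ a))
    (prE dp eN ℓp (sz a + C)) (2 ^ Nat.size (prE dp eN ℓp (sz a + C)))) ?_ hP hℓ
  have e1 : NPC.Poly (fun q : α × List Bool => q.1) := NPC.Poly.fst NPC.Poly.id
  refine keep_poly (vf := fun q : α × List Bool => vfE dp eN ℓp ψ C q.1) (hd.comp e1)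
    (hκ.toPoly.comp e1) (hP.comp e1) (hT.comp e1) ?_ (NPC.Poly.snd NPC.Poly.id)
  exact hvf.comp (NPC.Poly.pair (NPC.Poly.fst (NPC.Poly.fst NPC.Poly.id))
    (NPC.Poly.snd NPC.Poly.id))

variable {dp eN ℓp}

theorem PPE_eval (b : ℕ) : (PPE dp eN ℓp).eval b = 8 * (dE dp ℓp).eval b * ℓp.eval b *
    ((dE dp ℓp).eval b * (lamE dp eN ℓp).eval b + 1) + 1 := by
  simp [PPE]

theorem prE_spec (b : ℕ) : (prE dp eN ℓp b).Prime ∧ (PPE dp eN ℓp).eval b < prE dp eN ℓp b ∧
    prE dp eN ℓp b ≤ 2 * (PPE dp eN ℓp).eval b :=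
  prm_spec (m := (PPE dp eN ℓp).eval b) (by rw [PPE_eval]; omega)

theorem candE_mem {ψ : ℕ → List Bool → List ℤ} {ℓ : α → ℕ} {C : ℕ}
    (hd1 : ∀ N, 1 ≤ dp.eval N)
    (hE : ∀ N (y : List Bool), y.length ≤ N → sz (ψ N y) ≤ eN.eval N)
    {a : α} {M : List Bool} (hM : M.length = ℓ a) (hℓ : ℓ a ≤ ℓp.eval (sz a))
    {b N : ℕ} (hbdef : b = sz a + C) (hb : (PBE dp eN ℓp).eval b < 2 ^ b)
    (hN : N = (PNE ℓp).eval b) {z : Fin (dp.eval N) → ℝ}
    (hz : ∀ j t, (bits ((a, (prE dp eN ℓp b, (j, t))) : α × (ℕ × (ℕ × (ℕ × ℕ))))).length ≤ N →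
      1 ≤ ((sgn (lab (prE dp eN ℓp b) t (M.take j)) : ℤ) : ℝ) *
        (z ⬝ᵥ rv (toV _ (ψ N (bits ((a, (prE dp eN ℓp b, (j, t))) :
          α × (ℕ × (ℕ × (ℕ × ℕ))))))))) :
    M ∈ candE dp eN ℓp ψ ℓ C a := by
  set P := prE dp eN ℓp b with hP
  obtain ⟨hP1, hP2, hP3⟩ := prE_spec (dp := dp) (eN := eN) (ℓp := ℓp) b
  rw [← hP] at hP1 hP2 hP3
  have hBe : (PBE dp eN ℓp).eval b = 4 * (PPE dp eN ℓp).eval b := by simp [PBE]
  have hPe := PPE_eval (dp := dp) (eN := eN) (ℓp := ℓp) b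
  have hT1 : P < 2 ^ Nat.size P := Nat.lt_size_self P
  have hT2 := two_pow_size_le hP1.pos
  have hPlt : P < 2 ^ b := by omega
  have hTlt : 2 ^ Nat.size P < 2 ^ b := by omega
  have hdd : (dE dp ℓp).eval b = dp.eval N := by rw [dE, Polynomial.eval_comp, hN]
  have hee : (eE eN ℓp).eval b = eN.eval N := by rw [eE, Polynomial.eval_comp, hN]
  have hhe : (hXE dp eN ℓp).eval b =
      3 * dp.eval N + dp.eval N * dp.eval N + eN.eval N * dp.eval N := by
    rw [← hdd, ← hee]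
    simp [hXE]
  have hle : (lamE dp eN ℓp).eval b =
      2 * b + dp.eval N + 2 * eN.eval N + 2 * (hXE dp eN ℓp).eval b + 1 := by
    rw [← hdd, ← hee]
    simp [lamE]
  have hℓb : ℓ a ≤ ℓp.eval b := hℓ.trans (eval_mono ℓp (by omega))
  have hlen : ∀ j ≤ ℓ a, ∀ t ∈ tests P (2 ^ Nat.size P),
      (bits ((a, (P, (j, t))) : α × (ℕ × (ℕ × (ℕ × ℕ))))).length ≤ N := by
    rintro j hj ⟨t1, t2⟩ ht
    rw [mem_tests, Finset.mem_product, Finset.mem_range, Finset.mem_range] at ht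
    have e1 : sz P ≤ 4 * b + 1 := by
      have := Nat.size_le.2 hPlt
      exact (sz_nat_le P).trans (by omega)
    have e2 : sz t1 ≤ 4 * b + 1 := by
      have : t1.size ≤ b := Nat.size_le.2 (ht.1.trans hPlt)
      exact (sz_nat_le t1).trans (by omega)
    have e3 : sz t2 ≤ 4 * b + 1 := by
      have : t2.size ≤ b := Nat.size_le.2 (ht.2.trans hTlt)
      exact (sz_nat_le t2).trans (by omega)
    have e4 : sz j ≤ 4 * ℓp.eval b + 1 := by
      have := NPC.Poly.size_le_self j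
      exact (sz_nat_le j).trans (by omega)
    have h6 : (PNE ℓp).eval b = b + 3 * (4 * b + 1) + (4 * ℓp.eval b + 1) + 5 := by
      simp [PNE]
    rw [bits_length, sz_pair, sz_pair, sz_pair, sz_pair, hN, h6]
    omega
  have hEq : ∀ j ≤ ℓ a, ∀ t ∈ tests P (2 ^ Nat.size P),
      sz (ψ N (bits ((a, (P, (j, t))) : α × (ℕ × (ℕ × (ℕ × ℕ)))))) ≤ eN.eval N :=
    fun j hj t ht => hE N _ (hlen j hj t ht)
  have hsees : Sees (fun j t => (ψ N (bits ((a, (P, (j, t))) : α × (ℕ × (ℕ × (ℕ × ℕ)))))).map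
      fun c => 2 ^ ((hXE dp eN ℓp).eval b) * c) (dp.eval N) P (2 ^ Nat.size P) M :=
    sees_gen (xf := fun j t => ψ N (bits ((a, (P, (j, t))) : α × (ℕ × (ℕ × (ℕ × ℕ))))))
      (z0 := z) hhe (by rw [hM]; exact hEq)
      (by rw [hM]; exact fun j hj t ht => hz j t (hlen j hj t ht))
  have hmem := level_mem (P := P) (k := Nat.size P) (lam := (lamE dp eN ℓp).eval b) (w := M)
    hsees hP1 hT1.le (hd1 N) (κ := 8 * dp.eval N * (2 ^ Nat.size P * ℓ a)) (by rw [hM])
    (fun j hj => by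
      rw [hM] at hj
      have := trace_gen (xf := fun t => ψ N (bits ((a, (P, (j, t))) : α × (ℕ × (ℕ × (ℕ × ℕ))))))
        (d := dp.eval N) (e := eN.eval N) (h := (hXE dp eN ℓp).eval b) (P := P)
        (T := 2 ^ Nat.size P) (b := b) (hEq j hj) hPlt.le hTlt.le
      rw [hle]
      exact this) (by
      rw [hM]
      have h3 : 8 * dp.eval N * ℓ a * (dp.eval N * (lamE dp eN ℓp).eval b + 1) ≤
          8 * dp.eval N * ℓp.eval b * (dp.eval N * (lamE dp eN ℓp).eval b + 1) :=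
        Nat.mul_le_mul_right _ (Nat.mul_le_mul_left _ hℓb)
      rw [hdd] at hPe
      omega)
  unfold candE vfE
  rw [hM] at hmem
  rw [← hbdef, hdd, ← hN]
  exact hmem

end

/-- **Enumeration.** Let `M a` be strings of length `ℓ a`. If the labels of the prefixes of the
strings `M a` form a halfspace over features computed in polynomial time, then `M a` is in a list
of strings computed from `a` in polynomial time. -/
theorem enum_of_cumH {α : Type} [TEnc α] (good : α → Prop) (M : α → List Bool) (ℓ : α → ℕ)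
    (hℓ : UPoly ℓ) (hM : ∀ a, good a → (M a).length = ℓ a) (Q : Set (List Bool))
    (hQ : ∀ a, good a → ∀ (P j : ℕ) (t : ℕ × ℕ),
      (bits ((a, (P, (j, t))) : α × (ℕ × (ℕ × (ℕ × ℕ)))) ∈ Q ↔ lab P t ((M a).take j) = true))
    {ψ : ℕ → List Bool → List ℤ} {dp : Polynomial ℕ} (h : CumH ψ dp Q) :
    ∃ (c : α → List (List Bool)) (K : Polynomial ℕ), NPC.Poly c ∧
      (∀ a, (c a).length ≤ K.eval (sz a)) ∧ (∀ a, ∀ u ∈ c a, u.length = ℓ a) ∧
        ∀ a, good a → M a ∈ c a := by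
  obtain ⟨hψ, hd1, hsep⟩ := h
  obtain ⟨q0, hq0⟩ := hψ.sz_le
  obtain ⟨ℓp, hℓp⟩ := uPoly_le hℓ
  set eN : Polynomial ℕ := q0.comp (Polynomial.C 6 * Polynomial.X + Polynomial.C 3) with heN
  have hE : ∀ N x, x.length ≤ N → sz (ψ N x) ≤ eN.eval N := by
    intro N x hx
    have h1 := hq0 (List.replicate N (), x)
    simp only [List.length_replicate, sz_pair, Helper70K1.SP.sz_replicate] at h1
    have h2 := sz_listBool_le x
    refine h1.trans ?_
    rw [heN, Polynomial.eval_comp]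
    refine eval_mono q0 ?_
    simp only [Polynomial.eval_add, Polynomial.eval_mul, Polynomial.eval_C, Polynomial.eval_X]
    omega
  obtain ⟨C, hC⟩ := Helper70K1.SP.poly_lt_two_pow (PBE dp eN ℓp)
  refine ⟨candE dp eN ℓp ψ ℓ C, (Polynomial.C 2 * PPE dp eN ℓp + Polynomial.C 1).comp
    (Polynomial.X + Polynomial.C C), candE_poly dp eN ℓp hℓ C hψ, ?_, ?_, ?_⟩
  · intro a
    refine (level_inv _ _ _).2.1.trans ?_
    have h1 := (prE_spec (dp := dp) (eN := eN) (ℓp := ℓp) (sz a + C)).2.2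
    simp only [Polynomial.eval_comp, Polynomial.eval_add, Polynomial.eval_mul, Polynomial.eval_C,
      Polynomial.eval_X]
    omega
  · intro a
    exact (level_inv _ _ _).1
  · intro a ha
    obtain ⟨z, hz⟩ := hsep ((PNE ℓp).eval (sz a + C))
    refine candE_mem hd1 hE (hM a ha) (hℓp a) rfl (hC _ (Nat.le_add_left _ _)) rfl (z := z) ?_
    intro j t hlen
    obtain ⟨e1, e2⟩ := hz _ hlen
    have hm := hQ a ha (prE dp eN ℓp (sz a + C)) j t
    cases hlb : lab (prE dp eN ℓp (sz a + C)) t ((M a).take j) with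
    | true =>
      have := e1 (hm.2 hlb)
      simp only [sgn, if_true, Int.cast_one, one_mul]
      exact this
    | false =>
      have := e2 fun hin => by
        rw [hm.1 hin] at hlb
        exact absurd hlb (by simp)
      simp only [sgn, Bool.false_eq_true, if_false, Int.cast_neg, Int.cast_one, neg_mul, one_mul]
      linarith

end Pool.Agent.Helper49.HS
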