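import Pool.Agent.Helper49.HS.Main

/-!
# Polynomial space collapses if its languages are halfspaces
-/

set_option autoImplicit false

namespace Pool.Agent.Helper49.HS

open Pool.Agent.NPC Matrix
open Pool.Agent.H623R2.PS (evq InPSPACE poly_replicate PSPACEHard)
open Pool.Agent.H656R2.AK (evc QF QFwf qbf_hard)
open Pool.Agent.Helper70K1.SP
open Pool.Agent.H579R2.Spt (sgn bits_poly)
open Pool.Agent.Helper49.KM (QK LK inPSPACE_LK PNK sz_queryK runC runC_correct poly_runC)

theorem collapse_of_cumH {ψ : ℕ → List Bool → List ℤ} {dp : Polynomial ℕ} (h : CumH ψ dp LK)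
    {L : Set (List Bool)} (hL : InPSPACE L) : InP L := by
  obtain ⟨g, hg, hgwf, hgL⟩ := qbf_hard hL
  -- the size of the features
  obtain ⟨q0, hq0⟩ := h.1.sz_le
  set eN : Polynomial ℕ := q0.comp (Polynomial.C 6 * Polynomial.X + Polynomial.C 3) with heN
  have hE : ∀ N x, x.length ≤ N → sz (ψ N x) ≤ eN.eval N := by
    intro N x hx
    have h1 := hq0 (List.replicate N (), x)
    simp only [List.length_replicate, sz_pair, sz_replicate] at h1
    have h2 := sz_listBool_le x
    refine h1.trans ?_
    rw [heN, Polynomial.eval_comp]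
    refine eval_mono q0 ?_
    simp only [Polynomial.eval_add, Polynomial.eval_mul, Polynomial.eval_C, Polynomial.eval_X]
    omega
  -- the size parameter
  have hbig : NPC.Poly (fun x : List Bool => ((g x).2, (opsQ (g x).1.length 0 (g x).1,
      (g x).1))) := by
    have h1 : NPC.Poly (fun x : List Bool => (g x).1) := NPC.Poly.fst hg
    have h2 := poly_opsQ h1
    fun_prop
  obtain ⟨r1, hr1⟩ := hbig.sz_le
  obtain ⟨c0, hc0⟩ := poly_lt_two_pow (PBK dp eN)
  set mm : List Bool → ℕ := fun x => r1.eval (4 * x.length + 1) + 10 + c0 with hmm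
  have hmmU : UPoly mm := by
    refine UPoly.add (UPoly.add ?_ (UPoly.const 10)) (UPoly.const c0)
    exact (UPoly.add (UPoly.mul (UPoly.const 4) (UPoly.length NPC.Poly.id))
      (UPoly.const 1)).eval r1
  set pp : List Bool → ℕ := fun x => findP ((PML dp eN).eval (mm x)) - 1 with hpp
  have hppP : NPC.Poly pp := by
    have := poly_findP (hmmU.eval (PML dp eN))
    fun_prop
  set WW : List Bool → List Unit := fun x => List.replicate (mm x) () with hWW
  have hWWl : ∀ x, (WW x).length = mm x := fun x => by rw [hWW]; simp
  set rr : List Bool → List ℕ := fun x => List.replicate (g x).1.length 0 with hrr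
  have hrrP : NPC.Poly rr := poly_replicate (UPoly.length (NPC.Poly.fst hg)) 0
  set dec : List Bool → Bool := fun x => decide (runC (cd dp eN ψ)
    ((PDK dp eN).eval (WW x).length) (WW x) (pp x) (g x).2 (opsQ (g x).1.length 0 (g x).1) (rr x) %
      (pp x + 1) = 1) with hdec
  have hdecP : NPC.Poly dec := by
    have h1 := poly_runC (cd_poly dp eN h.1) (PDK dp eN) (W := WW) (p := pp)
      (F := fun x => (g x).2)
      (os := fun x => opsQ (g x).1.length 0 (g x).1) (r := rr) hmmU hppP (NPC.Poly.snd hg)
      (poly_opsQ (NPC.Poly.fst hg)) hrrP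
    exact NPC.Poly.dec_eq (NPC.Poly.mod h1 (by fun_prop)) (NPC.Poly.const 1)
  refine ⟨fun x => [dec x], polyTime_of_poly hdecP, fun x => ?_⟩
  -- correctness
  set m := mm x with hm
  have hsz : sz (g x).2 + sz (opsQ (g x).1.length 0 (g x).1) + sz (g x).1 + 10 + c0 ≤ m := by
    have h1 := hr1 x
    have h2 := sz_listBool_le x
    have h3 := eval_mono r1 h2
    simp only [sz_pair] at h1
    rw [hm, hmm]
    simp only
    omega
  have hn : (g x).1.length < sz (g x).1 := length_lt_sz _
  have hpow := hc0 m (by omega)
  have hBK : (PBK dp eN).eval m = (PDK dp eN).eval m + 4 * (PP dp eN).eval m + m * m := by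
    simp [PBK]
  have hfp := findP_spec (M := (PML dp eN).eval m) (by simp [PML])
  have hpx : pp x = findP ((PML dp eN).eval m) - 1 := rfl
  have hPM : (PML dp eN).eval m = (PKK dp eN).eval m * (PKK dp eN).eval m * m + m + 2 := by
    simp [PML]
  have hPD : (PDK dp eN).eval m = 2 * (PML dp eN).eval m + 1 := by simp [PDK]
  have hp1 : pp x + 1 = findP ((PML dp eN).eval m) := by omega
  have hprime : Fact (pp x + 1).Prime := ⟨by rw [hp1]; exact hfp.1⟩
  set p := pp x with hp
  have hpm : p < 2 ^ (WW x).length := by rw [hWWl, ← hm]; omega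
  have hdegleaf : (((g x).2).map List.length).sum + 2 < m := by
    have key : ∀ F : List (List (Bool × ℕ)), (F.map List.length).sum + 1 ≤ sz F := by
      intro F
      induction F with
      | nil => simp
      | cons c F ih =>
        have := length_lt_sz c
        simp only [List.map_cons, List.sum_cons, sz_list_cons]
        omega
    have := key (g x).2
    omega
  have hrc := runC_correct (cd := cd dp eN ψ)
    (D := (PDK dp eN).eval (WW x).length) (W := WW x) (p := p) (cd_spec dp eN ψ) (F := (g x).2)
    (os0 := opsQ (g x).1.length 0 (g x).1) (n := (g x).1.length)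
    (d := (((g x).2).map List.length).sum + 2) (K := (PKK dp eN).eval m) hpm (by omega)
    (by rw [hWWl, ← hm]; exact hdegleaf) (by rw [hWWl, ← hm]; omega)
    (by rw [hWWl, ← hm]; omega) (opsQ_idx _ _ _ (by omega))
    (allDeg_suffix (by omega) (fun i _ => (degLE_leafC _ i).mono (by omega)) _ _) ?_
    (opsQ (g x).1.length 0 (g x).1) (rr x) List.suffix_rfl (by rw [hrr]; simp) (by
      intro a ha
      rw [hrr] at ha
      simp only at ha
      rw [List.eq_of_mem_replicate ha]
      exact Nat.zero_le _)
  · -- the final equivalence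
    rw [hgL x]
    have e1 : pt p (rr x) = fun _ => (0 : ZMod (p + 1)) := by
      funext i
      unfold pt
      rw [hrr]
      simp only
      by_cases hi : i < (g x).1.length
      · rw [List.getD_eq_getElem _ _ (by simpa using hi)]
        simp
      · rw [List.getD_eq_getElem?_getD, List.getElem?_eq_none (by simpa using hi)]
        simp
    rw [e1, val_ops] at hrc
    have h2 : ∀ y : ℕ, y % (p + 1) = 1 ↔ (y : ZMod (p + 1)) = 1 := by
      intro y
      have h3 := ZMod.natCast_eq_natCast_iff' y 1 (p + 1)
      rw [Nat.mod_eq_of_lt (a := 1) (by have := hprime.out.one_lt; omega), Nat.cast_one] at h3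
      exact h3.symm
    simp only [List.cons.injEq, and_true, hdec, decide_eq_true_eq]
    rw [h2, hrc]
    unfold bit
    split_ifs with hb
    · simp [hb]
    · simp [hb]
  · -- the candidates
    intro os r i hos hrl hra hi
    set I : Ins := (WW x, p, (g x).2, os, r, i) with hI
    have hIm : I.m = m := by
      change (WW x).length = m
      rw [hWWl]
    have hW : WW x = List.replicate m () := rfl
    constructor
    · have := cd_length dp eN ψ I
      rwa [hIm] at this
    · intro V hV
      have hwf : Wf I := ⟨by rw [hIm]; rw [hWWl, ← hm] at hpm; exact hpm, by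
        change i < r.length
        omega, fun o ho => by
        change o.2 < r.length
        rw [hrl]
        exact opsQ_idx _ _ 0 (by omega) o (hos.subset ho)⟩
      have hIp : I.p = p := rfl
      have : Fact (I.p + 1).Prime := hprime
      have hmain := cd_mem (dp := dp) (eN := eN) h hE hwf (by rw [hIm, hIp]; omega) ?_
        (by rw [hIm]; exact hpow) hV
      · exact hmain
      · intro P j t h1 h2 h3 h4
        rw [hIm] at h1 h2 h3 h4 ⊢
        rw [hI, hW]
        exact sz_queryK (by rw [hWWl, ← hm] at hpm; exact hpm) (by omega)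
          ((sz_suffix hos).trans (by omega)) (by omega) hra (by omega) h1 h2 h3 h4

/-- If all languages in polynomial space are halfspaces over features computed in polynomial time,
then polynomial space collapses to polynomial time. -/
theorem collapse_of_all (h : ∀ L : Set (List Bool), InPSPACE L → Halfspace L) :
    ∀ L : Set (List Bool), InPSPACE L → InP L := by
  obtain ⟨ψ, dp, h1⟩ := cumH_of_halfspace (h LK inPSPACE_LK)
  exact fun L hL => collapse_of_cumH h1 hL

/-- If a language that is hard for polynomial space is a halfspace over features computed in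
polynomial time, then polynomial space collapses to polynomial time. -/
theorem collapse_of_hard {A : Set (List Bool)} (hA : PSPACEHard A) (h : Halfspace A) :
    ∀ L : Set (List Bool), InPSPACE L → InP L := by
  obtain ⟨ψ, dp, h1⟩ := cumH_of_halfspace h
  obtain ⟨ψ', dp', h2⟩ := h1.of_reduces (hA LK inPSPACE_LK)
  exact fun L hL => collapse_of_cumH h2 hL

/-- Languages in polynomial time are halfspaces over one feature. -/
theorem halfspace_of_inP {L : Set (List Bool)} (h : InP L) : Halfspace L := by
  obtain ⟨f, hf, hfL⟩ := h
  have hfp : NPC.Poly f := PIso.poly_iff.2 hf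
  set φ : List Bool → List ℤ := fun x => [sgn (decide (f x = [true]))] with hφ
  have hφp : NPC.Poly φ := NPC.Poly.cons
    (KM.sgn_poly (NPC.Poly.dec_eq hfp (NPC.Poly.const [true]))) (NPC.Poly.const [])
  refine ⟨φ, ⟨fun x => bits (φ x), PIso.poly_iff.1 (bits_poly.comp hφp), fun _ => rfl⟩,
    fun n => ⟨fun _ => 1, fun x _ => ?_⟩⟩
  rw [hfL x]
  simp only [hφ, List.length_singleton, Finset.sum_range_one, List.getD_cons_zero, one_mul]
  by_cases hx : f x = [true]
  · simp [hx, sgn]
  · simp [hx, sgn]

end Pool.Agent.Helper49.HS
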