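import Pool.Agent.Helper49.HS.Final

/-!
# Languages decided by one weighted threshold gate for each length
-/

set_option autoImplicit false

namespace Pool.Agent.Helper49.HS

open Pool.Agent.NPC

/-- `A` is decided by one weighted threshold gate for each input length: for each `n` there are
arbitrary real weights `w 0, …, w (n - 1)` and an arbitrary real threshold `t`, such that a string
`x` of length `n` is in `A` if and only if the sum of the weights of its true bits exceeds `t`. -/
def LT1 (A : Set (List Bool)) : Prop :=
  ∀ n : ℕ, ∃ (w : ℕ → ℝ) (t : ℝ), ∀ x : List Bool, x.length = n →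
    (x ∈ A ↔ t < ∑ i ∈ Finset.range n, if x.getD i false then w i else 0)

theorem halfspace_of_LT1 {A : Set (List Bool)} (h : LT1 A) : Halfspace A := by
  have hφ : NPC.Poly (fun x : List Bool => (1 : ℤ) :: x.map (fun b => if b then (1 : ℤ) else 0)) := by
    refine NPC.Poly.cons (NPC.Poly.const 1) (NPC.Poly.map NPC.Poly.id ?_)
    refine (NPC.Poly.cond (NPC.Poly.snd NPC.Poly.id) (NPC.Poly.const (1 : ℤ))
      (NPC.Poly.const (0 : ℤ))).congr fun a => ?_
    cases a.2 <;> rfl
  refine ⟨fun x => (1 : ℤ) :: x.map (fun b => if b then (1 : ℤ) else 0),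
    ⟨fun x => bits _, PIso.poly_iff.1 (Pool.Agent.H579R2.Spt.bits_poly.comp hφ), fun _ => rfl⟩,
    fun n => ?_⟩
  obtain ⟨w, t, hw⟩ := h n
  refine ⟨fun i => if i = 0 then -t else w (i - 1), fun x hx => ?_⟩
  rw [hw x hx, List.length_cons, List.length_map, hx, Finset.sum_range_succ']
  simp only [List.getD_cons_succ, List.getD_cons_zero, if_true, Nat.succ_ne_zero,
    if_false, Nat.add_sub_cancel, Int.cast_one, mul_one]
  have e1 : ∀ i, w i * (((x.map (fun b => if b then (1 : ℤ) else 0)).getD i 0 : ℤ) : ℝ) =
      if x.getD i false then w i else 0 := by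
    intro i
    rcases lt_or_ge i x.length with hi | hi
    · rw [List.getD_eq_getElem _ _ (by simpa using hi), List.getD_eq_getElem _ _ hi,
        List.getElem_map]
      split_ifs <;> simp
    · rw [List.getD_eq_getElem?_getD, List.getElem?_eq_none (by simpa using hi),
        List.getD_eq_getElem?_getD, List.getElem?_eq_none hi]
      simp
  simp only [e1]
  constructor <;> intro h1 <;> linarith

theorem LT1_single : LT1 {[true]} := by
  intro n
  by_cases hn : n = 1
  · subst hn
    refine ⟨fun _ => 1, 0, fun x hx => ?_⟩
    obtain ⟨b, rfl⟩ := List.length_eq_one_iff.1 hx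
    rw [Finset.sum_range_one, List.getD_cons_zero]
    cases b <;> simp
  · refine ⟨fun _ => 0, 1, fun x hx => ?_⟩
    constructor
    · intro h
      rw [Set.mem_singleton_iff] at h
      rw [h] at hx
      simp at hx
      omega
    · intro h
      simp at h
      linarith

end Pool.Agent.Helper49.HS
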