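import Pool.Agent.Helper49.HS.Mats

/-!
# Small solutions of linear systems
-/

set_option autoImplicit false

namespace Pool.Agent.Helper49.HS

open Matrix

variable {d : ℕ} {τ : Type}

/-- There is a nonzero minor of order `r`. -/
def HasMinor (S : List τ) (x : τ → Fin d → ℤ) (r : ℕ) : Prop :=
  ∃ (R : Fin r → τ) (J : Fin r → Fin d), (∀ i, R i ∈ S) ∧
    (Matrix.of fun i j => x (R i) (J j)).det ≠ 0

theorem hasMinor_le {S : List τ} {x : τ → Fin d → ℤ} {r : ℕ} (h : HasMinor S x r) : r ≤ d := by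
  obtain ⟨R, J, _, h2⟩ := h
  have hJ : Function.Injective J := by
    intro j j' hj
    by_contra hne
    exact h2 (Matrix.det_zero_of_column_eq hne fun i => by simp [hj])
  simpa using Fintype.card_le_of_injective J hJ

theorem exists_max_minor (S : List τ) (x : τ → Fin d → ℤ) :
    ∃ r, HasMinor S x r ∧ ¬ HasMinor S x (r + 1) := by
  by_contra hcon
  push Not at hcon
  have h : ∀ r, HasMinor S x r := by
    intro r
    induction r with
    | zero => exact ⟨fun i => i.elim0, fun i => i.elim0, fun i => i.elim0, by simp⟩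
    | succ r ih => exact hcon r ih
  have := hasMinor_le (h (d + 1))
  omega

theorem bordered {S : List τ} {x : τ → Fin d → ℤ} {r : ℕ} {R : Fin r → τ} {J : Fin r → Fin d}
    (hR : ∀ i, R i ∈ S) (hn : ¬ HasMinor S x (r + 1)) {t : τ} (ht : t ∈ S) (c : Fin d) :
    (Matrix.fromBlocks (Matrix.of fun i j => x (R i) (J j))
      (Matrix.of fun i (_ : Fin 1) => x (R i) c) (Matrix.of fun (_ : Fin 1) j => x t (J j))
      (Matrix.of fun (_ : Fin 1) (_ : Fin 1) => x t c)).det = 0 := by
  by_contra hne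
  apply hn
  let e : Fin r ⊕ Fin 1 ≃ Fin (r + 1) := finSumFinEquiv
  refine ⟨fun i => Sum.elim R (fun _ => t) (e.symm i), fun i => Sum.elim J (fun _ => c) (e.symm i),
    fun i => ?_, ?_⟩
  · rcases h : e.symm i with a | a
    · simp only [h, Sum.elim_inl]
      exact hR a
    · simp only [h, Sum.elim_inr]
      exact ht
  · have h1 : (Matrix.of fun i j => x (Sum.elim R (fun _ => t) (e.symm i))
        (Sum.elim J (fun _ => c) (e.symm j))) =
        (Matrix.fromBlocks (Matrix.of fun i j => x (R i) (J j))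
      (Matrix.of fun i (_ : Fin 1) => x (R i) c) (Matrix.of fun (_ : Fin 1) j => x t (J j))
      (Matrix.of fun (_ : Fin 1) (_ : Fin 1) => x t c)).submatrix e.symm e.symm := by
      ext i j
      simp only [Matrix.of_apply, Matrix.submatrix_apply]
      cases e.symm i <;> cases e.symm j <;> simp
    rw [h1, Matrix.det_submatrix_equiv_self]
    exact hne

/-- A small vector with the same products. -/
theorem small_solution (S : List τ) (x : τ → Fin d → ℤ) {B : ℕ} (hB : 1 ≤ B)
    (hx : ∀ t ∈ S, ∀ i, (x t i).natAbs ≤ B) (z0 : Fin d → ℝ) :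
    ∃ z : Fin d → ℝ, (∀ t ∈ S, z ⬝ᵥ rv (x t) = z0 ⬝ᵥ rv (x t)) ∧
      z ⬝ᵥ z ≤ ((d * (d * d * (d.factorial * B ^ d)) ^ 2 : ℕ) : ℝ) *
        (S.map fun t => (z0 ⬝ᵥ rv (x t)) ^ 2).sum := by
  obtain ⟨r, ⟨R, J, hR, hdet⟩, hn⟩ := exists_max_minor S x
  have hrd : r ≤ d := hasMinor_le ⟨R, J, hR, hdet⟩
  set M : Matrix (Fin r) (Fin r) ℤ := Matrix.of fun i j => x (R i) (J j) with hM
  have hMr : (rm M).det ≠ 0 := by
    rw [rm_det]
    exact_mod_cast hdet
  have hMu : IsUnit (rm M).det := isUnit_iff_ne_zero.2 hMr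
  set f : Fin r → ℝ := fun i => z0 ⬝ᵥ rv (x (R i)) with hf
  set v : Fin r → ℝ := (rm M)⁻¹ *ᵥ f with hv
  set F : ℝ := (S.map fun t => (z0 ⬝ᵥ rv (x t)) ^ 2).sum with hF
  -- rows are combinations of the chosen rows
  have hrow : ∀ t ∈ S, ∀ c : Fin d, (x t c : ℝ) =
      (fun j => (x t (J j) : ℝ)) ⬝ᵥ ((rm M)⁻¹ *ᵥ fun i => (x (R i) c : ℝ)) := by
    intro t ht c
    have h1 := bordered (J := J) hR hn ht c
    have h2 := congrArg (Int.castRingHom ℝ) h1
    rw [map_zero, RingHom.map_det, RingHom.mapMatrix_apply, Matrix.fromBlocks_map] at h2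
    have : Invertible (rm M) := Matrix.invertibleOfIsUnitDet _ hMu
    have e1 : (Matrix.of fun i j => x (R i) (J j)).map (Int.castRingHom ℝ) = rm M := rfl
    rw [e1, Matrix.det_fromBlocks₁₁, mul_eq_zero] at h2
    rcases h2 with h2 | h2
    · exact absurd h2 hMr
    · rw [Matrix.det_unique, Matrix.sub_apply, sub_eq_zero] at h2
      rw [Matrix.invOf_eq_nonsing_inv, Matrix.mul_assoc] at h2
      refine h2.trans ?_
      rfl
  have hrow2 : ∀ t ∈ S, z0 ⬝ᵥ rv (x t) = (fun j => (x t (J j) : ℝ)) ⬝ᵥ v := by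
    intro t ht
    have e1 : rv (x t) = fun c => (fun j => (x t (J j) : ℝ)) ⬝ᵥ
        ((rm M)⁻¹ *ᵥ fun i => (x (R i) c : ℝ)) := by
      funext c
      exact hrow t ht c
    rw [e1]
    simp only [dotProduct, Matrix.mulVec, hv, hf, Finset.mul_sum, rv]
    rw [Finset.sum_comm]
    refine Finset.sum_congr rfl fun j _ => ?_
    rw [Finset.sum_comm]
    refine Finset.sum_congr rfl fun i _ => ?_
    refine Finset.sum_congr rfl fun c _ => ?_
    ring
  -- the small vector
  set z : Fin d → ℝ := fun c => ∑ j, if J j = c then v j else 0 with hz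
  have hzdot : ∀ y : Fin d → ℝ, z ⬝ᵥ y = ∑ j, v j * y (J j) := by
    intro y
    simp only [dotProduct, hz, Finset.sum_mul]
    rw [Finset.sum_comm]
    refine Finset.sum_congr rfl fun j _ => ?_
    rw [Finset.sum_eq_single (J j)]
    · simp
    · intro c _ hc
      rw [if_neg (Ne.symm hc), zero_mul]
    · intro h
      exact absurd (Finset.mem_univ _) h
  refine ⟨z, fun t ht => ?_, ?_⟩
  · rw [hzdot, hrow2 t ht]
    simp only [dotProduct, rv]
    exact Finset.sum_congr rfl fun j _ => mul_comm _ _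
  · -- the bound
    have hF0 : 0 ≤ F := List.sum_nonneg fun b hb => by
      obtain ⟨t, _, rfl⟩ := List.mem_map.1 hb
      positivity
    set s := Real.sqrt F with hs
    have hs0 : 0 ≤ s := Real.sqrt_nonneg _
    have hs2 : s ^ 2 = F := Real.sq_sqrt hF0
    have hfi : ∀ i, |f i| ≤ s := by
      intro i
      refine Real.abs_le_sqrt ?_
      exact List.single_le_sum (fun b hb => by
        obtain ⟨t', _, rfl⟩ := List.mem_map.1 hb
        positivity) _ (List.mem_map_of_mem (hR i))
    set K : ℝ := ((d.factorial * B ^ d : ℕ) : ℝ) with hK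
    have hK0 : 0 ≤ K := by positivity
    have hinv : ∀ i j, |(rm M)⁻¹ i j| ≤ K := by
      intro i j
      rw [Matrix.inv_def, rm_adj, rm_det, Ring.inverse_eq_inv', Matrix.smul_apply, smul_eq_mul,
        abs_mul, abs_inv, rm_apply]
      have h1 : (1 : ℝ) ≤ |((M.det : ℤ) : ℝ)| := by
        rw [← Int.cast_abs]
        exact_mod_cast Int.one_le_abs hdet
      have h2 : |((M.adjugate i j : ℤ) : ℝ)| ≤ K := by
        have h3 := natAbs_adj_le (M := M) hB (fun a b => hx _ (hR a) _) i j
        have h4 : r.factorial * B ^ r ≤ d.factorial * B ^ d :=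
          Nat.mul_le_mul (Nat.factorial_le hrd) (Nat.pow_le_pow_right hB hrd)
        rw [← Int.cast_abs, Int.abs_eq_natAbs, hK]
        have h5 := h3.trans h4
        exact_mod_cast h5
      calc (|((M.det : ℤ) : ℝ)|)⁻¹ * |((M.adjugate i j : ℤ) : ℝ)| ≤ 1 * K :=
            mul_le_mul (inv_le_one_of_one_le₀ h1) h2 (abs_nonneg _) zero_le_one
        _ = K := one_mul K
    have hd0 : (0 : ℝ) ≤ d := by positivity
    have hrd' : (r : ℝ) ≤ d := by exact_mod_cast hrd
    have hvj : ∀ j, |v j| ≤ d * (K * s) := by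
      intro j
      simp only [hv, Matrix.mulVec, dotProduct]
      refine (Finset.abs_sum_le_sum_abs _ _).trans ?_
      refine (Finset.sum_le_card_nsmul _ _ (K * s) fun i _ => ?_).trans ?_
      · rw [abs_mul]
        exact mul_le_mul (hinv j i) (hfi i) (abs_nonneg _) hK0
      · rw [Finset.card_univ, Fintype.card_fin, nsmul_eq_mul]
        exact mul_le_mul_of_nonneg_right hrd' (by positivity)
    have hzc : ∀ c, |z c| ≤ d * (d * (K * s)) := by
      intro c
      simp only [hz]
      refine (Finset.abs_sum_le_sum_abs _ _).trans ?_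
      refine (Finset.sum_le_card_nsmul _ _ (d * (K * s)) fun j _ => ?_).trans ?_
      · split_ifs
        · exact hvj j
        · rw [abs_zero]
          positivity
      · rw [Finset.card_univ, Fintype.card_fin, nsmul_eq_mul]
        exact mul_le_mul_of_nonneg_right hrd' (by positivity)
    have h1 : z ⬝ᵥ z ≤ d * (d * (d * (K * s))) ^ 2 := by
      simp only [dotProduct]
      refine (Finset.sum_le_card_nsmul _ _ ((d * (d * (K * s))) ^ 2) fun c _ => ?_).trans ?_
      · rw [← sq, ← sq_abs]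
        exact pow_le_pow_left₀ (abs_nonneg _) (hzc c) 2
      · rw [Finset.card_univ, Fintype.card_fin, nsmul_eq_mul]
    refine h1.trans (le_of_eq ?_)
    rw [← hs2]
    push_cast
    rw [hK]
    push_cast
    ring

end Pool.Agent.Helper49.HS
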