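import Pool.Agent.Helper49.HS.SearchPoly
import Pool.Agent.Helper49.HS.Small
import Pool.Agent.Helper49.HS.Cum
import Pool.Agent.Helper49.KM.Main

/-!
# Halfspaces over features computed in polynomial time, and polynomial space
-/

set_option autoImplicit false

namespace Pool.Agent.Helper49.HS

open Pool.Agent.NPC Matrix
open Pool.Agent.H623R2.PS (evq InPSPACE poly_replicate PSPACEHard)
open Pool.Agent.H656R2.AK (evc QF QFwf qbf_hard)
open Pool.Agent.Helper70K1.SP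
open Pool.Agent.H579R2.Spt (sgn tests mem_tests lab prm prm_spec prm_poly two_pow_size_poly
  bits_poly)
open Pool.Agent.Helper49.KM (QK LK mem_LK inPSPACE_LK PNK sz_queryK
  two_pow_size_le runC runC_correct poly_runC)

/-! ### Parameters -/

variable (dp eN : Polynomial ℕ)

/-- The dimension. -/
noncomputable def dQ : Polynomial ℕ := dp.comp PNK

/-- The size of the features. -/
noncomputable def eQ : Polynomial ℕ := eN.comp PNK

/-- The exponent of the factor of the features. -/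
noncomputable def hQ : Polynomial ℕ :=
  Polynomial.C 3 * dQ dp + dQ dp * dQ dp + eQ eN * dQ dp

/-- The exponent of the bound for the trace. -/
noncomputable def lamQ : Polynomial ℕ :=
  Polynomial.C 2 * Polynomial.X + dQ dp + Polynomial.C 2 * eQ eN + Polynomial.C 2 * hQ dp eN +
    Polynomial.C 1

/-- The lower bound for the prime of the tests. -/
noncomputable def PP : Polynomial ℕ :=
  Polynomial.C 8 * dQ dp * (Polynomial.X * Polynomial.X) * (dQ dp * lamQ dp eN + Polynomial.C 1) +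
    Polynomial.C 1

/-- The bound for the number of candidates. -/
noncomputable def PKK : Polynomial ℕ := Polynomial.C 2 * PP dp eN + Polynomial.C 1

/-- The lower bound for the modulus. -/
noncomputable def PML : Polynomial ℕ :=
  PKK dp eN * PKK dp eN * Polynomial.X + Polynomial.X + Polynomial.C 2

/-- The upper bound for the modulus. -/
noncomputable def PDK : Polynomial ℕ := Polynomial.C 2 * PML dp eN + Polynomial.C 1

/-- The bound for all the numbers in the queries. -/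
noncomputable def PBK : Polynomial ℕ :=
  PDK dp eN + Polynomial.C 4 * PP dp eN + Polynomial.X * Polynomial.X

/-- The prime of the tests. -/
noncomputable def pr (m : ℕ) : ℕ := prm ((PP dp eN).eval m)

/-- The features of a query. -/
noncomputable def vfI (ψ : ℕ → List Bool → List ℤ) (I : Ins) (j : ℕ) (t : ℕ × ℕ) : List ℤ :=
  (ψ (PNK.eval I.m) (bits ((I, (pr dp eN I.m, (j, t))) : QK))).map
    fun c => 2 ^ ((hQ dp eN).eval I.m) * c

/-- The candidates for the list of coefficients. -/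
noncomputable def cd (ψ : ℕ → List Bool → List ℤ) (I : Ins) : List (List ℕ) :=
  ((level (keep (vfI dp eN ψ I) ((dQ dp).eval I.m)
    (8 * (dQ dp).eval I.m * (2 ^ Nat.size (pr dp eN I.m) * (I.m * I.m))) (pr dp eN I.m)
      (2 ^ Nat.size (pr dp eN I.m))) (pr dp eN I.m) (I.m * I.m)).map fun s => cf I.m (valB s)).filter
      fun c => c.all fun a => decide (a ≤ I.p)

theorem cd_poly {ψ : ℕ → List Bool → List ℤ}
    (hψ : NPC.Poly (fun a : List Unit × List Bool => ψ a.1.length a.2)) :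
    NPC.Poly (cd dp eN ψ) := by
  have hm : UPoly (fun I : Ins => I.m) := uPoly_m NPC.Poly.id
  have hP : UPoly (fun I : Ins => pr dp eN I.m) := prm_poly (hm.eval (PP dp eN))
  have hT : UPoly (fun I : Ins => 2 ^ Nat.size (pr dp eN I.m)) := two_pow_size_poly hP
  have hd : UPoly (fun I : Ins => (dQ dp).eval I.m) := hm.eval (dQ dp)
  have hκ : UPoly (fun I : Ins => 8 * (dQ dp).eval I.m *
      (2 ^ Nat.size (pr dp eN I.m) * (I.m * I.m))) :=
    UPoly.mul (UPoly.mul (UPoly.const 8) hd) (UPoly.mul hT (UPoly.mul hm hm))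
  have hvf : NPC.Poly (fun p : Ins × ℕ × ℕ × ℕ => vfI dp eN ψ p.1 p.2.1 p.2.2) := by
    unfold vfI
    have e1 : NPC.Poly (fun p : Ins × ℕ × ℕ × ℕ => p.1) := NPC.Poly.fst NPC.Poly.id
    have e2 : NPC.Poly (fun p : Ins × ℕ × ℕ × ℕ => ((p.1, (pr dp eN p.1.m, (p.2.1, p.2.2))) : QK)) :=
      NPC.Poly.pair e1 (NPC.Poly.pair (hP.toPoly.comp e1) (NPC.Poly.pair
        (NPC.Poly.fst (NPC.Poly.snd NPC.Poly.id)) (NPC.Poly.snd (NPC.Poly.snd NPC.Poly.id))))
    have e3 : NPC.Poly (fun p : Ins × ℕ × ℕ × ℕ => (List.replicate (PNK.eval p.1.m) (),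
        bits ((p.1, (pr dp eN p.1.m, (p.2.1, p.2.2))) : QK))) :=
      NPC.Poly.pair ((hm.comp e1).eval PNK) (bits_poly.comp e2)
    have e4 : NPC.Poly (fun p : Ins × ℕ × ℕ × ℕ => ψ (PNK.eval p.1.m)
        (bits ((p.1, (pr dp eN p.1.m, (p.2.1, p.2.2))) : QK))) :=
      (hψ.comp e3).congr fun p => by simp only [List.length_replicate]
    refine NPC.Poly.map (F := fun (p : Ins × ℕ × ℕ × ℕ) c => 2 ^ ((hQ dp eN).eval p.1.m) * c) e4 ?_
    refine NPC.Poly.imul (NPC.Poly.ipow (NPC.Poly.const 2) ?_) (NPC.Poly.snd NPC.Poly.id)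
    exact (hm.comp (NPC.Poly.fst (NPC.Poly.fst NPC.Poly.id))).eval (hQ dp eN)
  have hK : NPC.Poly (fun p : Ins × List Bool => keep (vfI dp eN ψ p.1) ((dQ dp).eval p.1.m)
      (8 * (dQ dp).eval p.1.m * (2 ^ Nat.size (pr dp eN p.1.m) * (p.1.m * p.1.m)))
      (pr dp eN p.1.m) (2 ^ Nat.size (pr dp eN p.1.m)) p.2) := by
    have e1 : NPC.Poly (fun p : Ins × List Bool => p.1) := NPC.Poly.fst NPC.Poly.id
    refine keep_poly (vf := fun p : Ins × List Bool => vfI dp eN ψ p.1) (hd.comp e1)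
      (hκ.toPoly.comp e1) (hP.comp e1) (hT.comp e1) ?_ (NPC.Poly.snd NPC.Poly.id)
    exact hvf.comp (NPC.Poly.pair (NPC.Poly.fst (NPC.Poly.fst NPC.Poly.id))
      (NPC.Poly.snd NPC.Poly.id))
  have h1 := level_poly (K := fun I : Ins => keep (vfI dp eN ψ I) ((dQ dp).eval I.m)
      (8 * (dQ dp).eval I.m * (2 ^ Nat.size (pr dp eN I.m) * (I.m * I.m))) (pr dp eN I.m)
      (2 ^ Nat.size (pr dp eN I.m))) hK hP (UPoly.mul hm hm)
  unfold cd
  refine NPC.Poly.filter (p := fun (I : Ins) (c : List ℕ) => c.all fun b => decide (b ≤ I.p))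
    (NPC.Poly.map (F := fun (I : Ins) s => cf I.m (valB s)) h1 ?_) ?_
  · exact poly_cf (hm.comp (NPC.Poly.fst NPC.Poly.id)) (by fun_prop)
  · fun_prop

theorem cd_spec (ψ : ℕ → List Bool → List ℤ) (I : Ins) :
    ∀ c ∈ cd dp eN ψ I, c.length = I.m ∧ ∀ a ∈ c, a ≤ I.p := by
  intro c hc
  unfold cd at hc
  rw [List.mem_filter, List.all_eq_true] at hc
  obtain ⟨h1, h2⟩ := hc
  obtain ⟨s, _, rfl⟩ := List.mem_map.1 h1
  exact ⟨cf_length _ _, fun a ha => by simpa using h2 a ha⟩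

theorem PP_eval (m : ℕ) : (PP dp eN).eval m = 8 * (dQ dp).eval m * (m * m) *
    ((dQ dp).eval m * (lamQ dp eN).eval m + 1) + 1 := by
  simp [PP]

theorem cd_length (ψ : ℕ → List Bool → List ℤ) (I : Ins) :
    (cd dp eN ψ I).length ≤ (PKK dp eN).eval I.m := by
  unfold cd
  refine (List.length_filter_le _ _).trans ?_
  rw [List.length_map]
  refine (level_inv _ _ _).2.1.trans ?_
  have h1 := (prm_spec (m := (PP dp eN).eval I.m) (by rw [PP_eval]; omega)).2.2
  have h2 : pr dp eN I.m = prm ((PP dp eN).eval I.m) := rfl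
  unfold PKK
  rw [Polynomial.eval_add, Polynomial.eval_mul, Polynomial.eval_C, Polynomial.eval_C]
  omega

variable {dp eN}

theorem toV_mul (d : ℕ) (H : ℤ) (l : List ℤ) :
    toV d (l.map fun c => H * c) = fun i => H * toV d l i := by
  funext i
  simp only [toV, List.getD_eq_getElem?_getD, List.getElem?_map]
  cases l[(i : ℕ)]? <;> simp

theorem rv_smul {d : ℕ} (H : ℤ) (x : Fin d → ℤ) : rv (fun i => H * x i) = (H : ℝ) • rv x := by
  funext i
  simp [rv]

theorem pow_bound (d e : ℕ) :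
    d * (d * d * (d.factorial * (2 ^ e) ^ d)) ^ 2 ≤ (2 ^ (3 * d + d * d + e * d)) ^ 2 := by
  have h1 : d ≤ 2 ^ d := Nat.lt_two_pow_self.le
  have h2 : d ≤ (2 ^ d) ^ 2 := h1.trans (Nat.le_self_pow (by norm_num) _)
  have h3 : d.factorial ≤ 2 ^ (d * d) := by
    calc d.factorial ≤ d ^ d := Nat.factorial_le_pow d
      _ ≤ (2 ^ d) ^ d := Nat.pow_le_pow_left h1 d
      _ = 2 ^ (d * d) := by rw [pow_mul]
  calc d * (d * d * (d.factorial * (2 ^ e) ^ d)) ^ 2
      ≤ (2 ^ d) ^ 2 * (2 ^ d * 2 ^ d * (2 ^ (d * d) * (2 ^ e) ^ d)) ^ 2 := by gcongr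
    _ = (2 ^ (3 * d + d * d + e * d)) ^ 2 := by
      rw [← mul_pow]
      congr 1
      rw [← pow_mul, ← pow_add, ← pow_add, ← pow_add, ← pow_add]
      congr 1
      ring

theorem sees_of {ψ : ℕ → List Bool → List ℤ} {I : Ins} {M : List Bool}
    (hE : ∀ N x, x.length ≤ N → sz (ψ N x) ≤ eN.eval N) {d : ℕ} (hd : d = (dQ dp).eval I.m)
    {z0 : Fin d → ℝ}
    (hlen : ∀ j ≤ M.length, ∀ t ∈ tests (pr dp eN I.m) (2 ^ Nat.size (pr dp eN I.m)),
      (bits ((I, (pr dp eN I.m, (j, t))) : QK)).length ≤ PNK.eval I.m)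
    (hz0 : ∀ j ≤ M.length, ∀ t ∈ tests (pr dp eN I.m) (2 ^ Nat.size (pr dp eN I.m)),
      1 ≤ ((sgn (lab (pr dp eN I.m) t (M.take j)) : ℤ) : ℝ) *
        (z0 ⬝ᵥ rv (toV _ (ψ (PNK.eval I.m) (bits ((I, (pr dp eN I.m, (j, t))) : QK)))))) :
    Sees (vfI dp eN ψ I) d (pr dp eN I.m) (2 ^ Nat.size (pr dp eN I.m)) M := by
  intro j hj S _ _ hSt
  set e := (eQ eN).eval I.m with he
  set h := (hQ dp eN).eval I.m with hh
  have hhe : h = 3 * d + d * d + e * d := by rw [hh, hd, he]; simp [hQ]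
  have hee : eN.eval (PNK.eval I.m) = e := by rw [he, eQ, Polynomial.eval_comp]
  set x : ℕ × ℕ → Fin d → ℤ := fun t =>
    toV d (ψ (PNK.eval I.m) (bits ((I, (pr dp eN I.m, (j, t))) : QK))) with hx
  have hvx : ∀ t, rv (toV d (vfI dp eN ψ I j t)) = ((2 ^ h : ℤ) : ℝ) • rv (x t) := by
    intro t
    unfold vfI
    rw [toV_mul, rv_smul]
  obtain ⟨z1, h1, h2⟩ := small_solution S x (B := 2 ^ e) Nat.one_le_two_pow (fun t ht i => by
    have := hE _ _ (hlen j hj t (hSt t ht))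
    rw [hee] at this
    exact getD_le_of_sz this _) z0
  have hH0 : (0 : ℝ) < ((2 ^ h : ℤ) : ℝ) := by
    push_cast
    positivity
  set H : ℝ := ((2 ^ h : ℤ) : ℝ) with hH
  have hdot : ∀ t ∈ S, (H⁻¹ • z1) ⬝ᵥ rv (toV d (vfI dp eN ψ I j t)) = z0 ⬝ᵥ rv (x t) := by
    intro t ht
    rw [hvx, smul_dotProduct, dotProduct_smul, smul_smul, inv_mul_cancel₀ hH0.ne', one_smul]
    exact h1 t ht
  refine ⟨H⁻¹ • z1, ?_, fun t ht => ?_⟩
  · have e1 : (S.map fun t => ((H⁻¹ • z1) ⬝ᵥ rv (toV d (vfI dp eN ψ I j t))) ^ 2) =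
        S.map fun t => (z0 ⬝ᵥ rv (x t)) ^ 2 :=
      List.map_congr_left fun t ht => by rw [hdot t ht]
    rw [e1, smul_dotProduct, dotProduct_smul, smul_eq_mul, smul_eq_mul]
    set F := (S.map fun t => (z0 ⬝ᵥ rv (x t)) ^ 2).sum with hF
    have hF0 : 0 ≤ F := List.sum_nonneg fun b hb => by
      obtain ⟨t, _, rfl⟩ := List.mem_map.1 hb
      positivity
    have h3 : ((d * (d * d * (d.factorial * (2 ^ e) ^ d)) ^ 2 : ℕ) : ℝ) ≤ H ^ 2 := by
      have h4 := pow_bound d e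
      rw [← hhe] at h4
      have h5 : ((d * (d * d * (d.factorial * (2 ^ e) ^ d)) ^ 2 : ℕ) : ℝ) ≤
          (((2 ^ h) ^ 2 : ℕ) : ℝ) := by exact_mod_cast h4
      refine h5.trans (le_of_eq ?_)
      rw [hH]
      push_cast
      ring
    have h4 : z1 ⬝ᵥ z1 ≤ H ^ 2 * F := h2.trans (mul_le_mul_of_nonneg_right h3 hF0)
    have h5 : H⁻¹ * (H⁻¹ * (z1 ⬝ᵥ z1)) ≤ H⁻¹ * (H⁻¹ * (H ^ 2 * F)) := by gcongr
    refine h5.trans (le_of_eq ?_)
    field_simp
  · rw [hdot t ht]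
    exact hz0 j hj t (hSt t ht)

theorem dot_self_le {d : ℕ} (x : Fin d → ℤ) {B : ℕ} (h : ∀ i, (x i).natAbs ≤ B) :
    x ⬝ᵥ x ≤ ((d * (B * B) : ℕ) : ℤ) := by
  refine (Finset.sum_le_card_nsmul _ _ ((B * B : ℕ) : ℤ) fun i _ => ?_).trans ?_
  · rw [← Int.natAbs_mul_self' (x i)]
    exact_mod_cast Nat.mul_le_mul (h i) (h i)
  · rw [Finset.card_univ, Fintype.card_fin, nsmul_eq_mul]
    push_cast
    exact le_rfl

theorem trace_le {ψ : ℕ → List Bool → List ℤ} {I : Ins} {j : ℕ}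
    (hE : ∀ N x, x.length ≤ N → sz (ψ N x) ≤ eN.eval N)
    (hlen : ∀ t ∈ tests (pr dp eN I.m) (2 ^ Nat.size (pr dp eN I.m)),
      (bits ((I, (pr dp eN I.m, (j, t))) : QK)).length ≤ PNK.eval I.m)
    (hP : pr dp eN I.m ≤ 2 ^ I.m) (hT : 2 ^ Nat.size (pr dp eN I.m) ≤ 2 ^ I.m) :
    (gram ((tests (pr dp eN I.m) (2 ^ Nat.size (pr dp eN I.m))).map fun t =>
      toV ((dQ dp).eval I.m) (vfI dp eN ψ I j t))).trace ≤ 2 ^ (lamQ dp eN).eval I.m := by
  set d := (dQ dp).eval I.m with hd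
  set e := (eQ eN).eval I.m with he
  set h := (hQ dp eN).eval I.m with hh
  have hee : eN.eval (PNK.eval I.m) = e := by rw [he, eQ, Polynomial.eval_comp]
  have hlam : (lamQ dp eN).eval I.m = 2 * I.m + d + 2 * e + 2 * h + 1 := by
    rw [hd, he, hh]; simp [lamQ]
  set l := tests (pr dp eN I.m) (2 ^ Nat.size (pr dp eN I.m)) with hl
  have hll : l.length ≤ 2 ^ I.m * 2 ^ I.m := by
    rw [hl, tests_length]
    exact Nat.mul_le_mul hP hT
  rw [trace_gram, List.map_map]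
  have h1 : (l.map ((fun x => x ⬝ᵥ x) ∘ fun t => toV d (vfI dp eN ψ I j t))).sum ≤
      ((l.length * (d * ((2 ^ h * 2 ^ e) * (2 ^ h * 2 ^ e))) : ℕ) : ℤ) := by
    refine (List.sum_le_card_nsmul _ ((d * ((2 ^ h * 2 ^ e) * (2 ^ h * 2 ^ e)) : ℕ) : ℤ)
      fun b hb => ?_).trans ?_
    · obtain ⟨t, ht, rfl⟩ := List.mem_map.1 hb
      simp only [Function.comp_apply]
      refine dot_self_le _ fun i => ?_
      unfold vfI
      rw [toV_mul, Int.natAbs_mul]
      have e1 := hE _ _ (hlen t ht)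
      rw [hee] at e1
      have e2 : (toV d (ψ (PNK.eval I.m) (bits ((I, (pr dp eN I.m, (j, t))) : QK))) i).natAbs ≤
        2 ^ e := getD_le_of_sz e1 _
      have e3 : (2 ^ h : ℤ).natAbs = 2 ^ h := by
        rw [Int.natAbs_pow]
        rfl
      rw [e3]
      exact Nat.mul_le_mul_left _ e2
    · rw [List.length_map, nsmul_eq_mul]
      push_cast
      exact le_rfl
  have h2 : l.length * (d * ((2 ^ h * 2 ^ e) * (2 ^ h * 2 ^ e))) ≤
      2 ^ (2 * I.m + d + 2 * e + 2 * h) := by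
    calc l.length * (d * ((2 ^ h * 2 ^ e) * (2 ^ h * 2 ^ e)))
        ≤ (2 ^ I.m * 2 ^ I.m) * (2 ^ d * ((2 ^ h * 2 ^ e) * (2 ^ h * 2 ^ e))) :=
          Nat.mul_le_mul hll (Nat.mul_le_mul_right _ Nat.lt_two_pow_self.le)
      _ = 2 ^ (2 * I.m + d + 2 * e + 2 * h) := by
        simp only [← pow_add]
        congr 1
        ring
  have h3 : d ≤ 2 ^ (2 * I.m + d + 2 * e + 2 * h) :=
    Nat.lt_two_pow_self.le.trans (Nat.pow_le_pow_right (by norm_num) (by omega))
  have h4 : (d : ℤ) + ((l.length * (d * ((2 ^ h * 2 ^ e) * (2 ^ h * 2 ^ e))) : ℕ) : ℤ) ≤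
      2 ^ (lamQ dp eN).eval I.m := by
    rw [hlam, pow_succ]
    have h5 : (d : ℤ) ≤ 2 ^ (2 * I.m + d + 2 * e + 2 * h) := by exact_mod_cast h3
    have h6 : ((l.length * (d * ((2 ^ h * 2 ^ e) * (2 ^ h * 2 ^ e))) : ℕ) : ℤ) ≤
      2 ^ (2 * I.m + d + 2 * e + 2 * h) := by exact_mod_cast h2
    linarith
  linarith

theorem cd_mem {ψ : ℕ → List Bool → List ℤ} (h : CumH ψ dp LK)
    (hE : ∀ N x, x.length ≤ N → sz (ψ N x) ≤ eN.eval N) {I : Ins} (hwf : Wf I)
    [Fact (I.p + 1).Prime] (hmp : I.m ≤ I.p)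
    (hsz : ∀ (P j : ℕ) (t : ℕ × ℕ), P < 2 ^ I.m → j < 2 ^ I.m → t.1 < 2 ^ I.m → t.2 < 2 ^ I.m →
      sz ((I, (P, (j, t))) : QK) ≤ PNK.eval I.m)
    (hbig : (PBK dp eN).eval I.m < 2 ^ I.m) {V : ℕ} (hV : Good I V) :
    cf I.m V ∈ cd dp eN ψ I := by
  obtain ⟨M, hM, rfl⟩ := exists_valB hV.1
  set m := I.m with hm
  set P := pr dp eN m with hP
  have hPdef : P = prm ((PP dp eN).eval m) := rfl
  have hPP := PP_eval dp eN m
  have hB : (PBK dp eN).eval m = (PDK dp eN).eval m + 4 * (PP dp eN).eval m + m * m := by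
    simp [PBK]
  obtain ⟨hP1, hP2, hP3⟩ := prm_spec (m := (PP dp eN).eval m) (by omega)
  rw [← hPdef] at hP1 hP2 hP3
  have hT1 : P < 2 ^ Nat.size P := Nat.lt_size_self P
  have hT2 := two_pow_size_le hP1.pos
  have hPlt : P < 2 ^ m := by omega
  have hTlt : 2 ^ Nat.size P < 2 ^ m := by omega
  have hmm : m * m < 2 ^ m := by omega
  have hlen : ∀ j ≤ M.length, ∀ t ∈ tests P (2 ^ Nat.size P),
      (bits ((I, (P, (j, t))) : QK)).length ≤ PNK.eval m := by
    intro j hj t ht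
    rw [mem_tests, Finset.mem_product, Finset.mem_range, Finset.mem_range] at ht
    rw [bits_length]
    exact hsz P j t hPlt (by omega) (by omega) (by omega)
  obtain ⟨z0, hz0⟩ := h.2.2 (PNK.eval m)
  have hdQ : (dQ dp).eval m = dp.eval (PNK.eval m) := by rw [dQ, Polynomial.eval_comp]
  have hz0' : ∃ z0 : Fin ((dQ dp).eval m) → ℝ, ∀ x : List Bool, x.length ≤ PNK.eval m →
      (x ∈ LK → 1 ≤ z0 ⬝ᵥ rv (toV _ (ψ (PNK.eval m) x))) ∧
      (x ∉ LK → z0 ⬝ᵥ rv (toV _ (ψ (PNK.eval m) x)) ≤ -1) := by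
    rw [hdQ]
    exact ⟨z0, hz0⟩
  obtain ⟨z0, hz0⟩ := hz0'
  have hsees : Sees (vfI dp eN ψ I) ((dQ dp).eval m) P (2 ^ Nat.size P) M := by
    refine sees_of (dp := dp) (eN := eN) (I := I) hE rfl (z0 := z0) hlen ?_
    intro j hj t ht
    obtain ⟨h5, h6⟩ := hz0 _ (hlen j hj t ht)
    cases hb : lab P t (M.take j) with
    | true =>
      have := h5 ((mem_LK hwf P j t).2 ⟨M, hM, hV, hb⟩)
      simp only [sgn, if_true, Int.cast_one, one_mul]
      exact this
    | false =>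
      have := h6 fun hin => by
        obtain ⟨M', hM', hV', hb'⟩ := (mem_LK hwf P j t).1 hin
        have h7 : valB M = valB M' := good_unique hmp hV hV'
        have h8 : M = M' := valB_inj M M' (hM.trans hM'.symm) h7
        rw [← h8, hb] at hb'
        exact absurd hb' (by simp)
      simp only [sgn, Bool.false_eq_true, if_false, Int.cast_neg, Int.cast_one, neg_mul, one_mul]
      linarith
  have hd1 : 1 ≤ (dQ dp).eval m := by
    rw [hdQ]
    exact h.2.1 _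
  have hmem := level_mem (vf := vfI dp eN ψ I) (d := (dQ dp).eval m) (P := P)
    (k := Nat.size P) (lam := (lamQ dp eN).eval m) (w := M) hsees hP1 hT1.le hd1
    (κ := 8 * (dQ dp).eval m * (2 ^ Nat.size P * (m * m))) (by rw [hM])
    (fun j hj => trace_le (dp := dp) (eN := eN) (I := I) hE (hlen j hj) hPlt.le hTlt.le) (by
      rw [hM]
      omega)
  unfold cd
  rw [List.mem_filter, List.all_eq_true]
  refine ⟨List.mem_map.2 ⟨M, ?_, rfl⟩, fun c hc => ?_⟩
  · rw [hM] at hmem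
    exact hmem
  · rw [decide_eq_true_eq]
    exact hV.2.1 c hc

end Pool.Agent.Helper49.HS
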