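import Pool.Agent.Helper49.HS.Mats
import Pool.Agent.Helper49.KM.SearchPoly

/-!
# The computation of the determinant and of the adjugate is polynomial
-/

set_option autoImplicit false

namespace Pool.Agent.Helper49.HS

open Matrix
open Pool.Agent.NPC

theorem natAbs_lt_of_sz {c : ℤ} {X : ℕ} (h : sz c ≤ X) : c.natAbs < 2 ^ X :=
  (Nat.lt_size_self _).trans_le (Nat.pow_le_pow_right (by norm_num)
    ((by have := size_natAbs_le_sz c; omega)))

theorem getD_le_of_sz {x : List ℤ} {X : ℕ} (h : sz x ≤ X) (i : ℕ) :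
    (x.getD i 0).natAbs ≤ 2 ^ X := by
  rw [List.getD_eq_getElem?_getD]
  cases h1 : x[i]? with
  | none => simp
  | some c =>
    simp only [Option.getD_some]
    have h2 := sz_le_of_mem (List.mem_of_getElem? h1)
    exact (natAbs_lt_of_sz (by omega)).le

/-- The exponent of the bound for the entries. -/
def eb (d X : ℕ) : ℕ := d * d + (3 * X + 1) * d

theorem det_bounds {d X : ℕ} {l : List (List ℤ)} (h : sz l ≤ X) :
    (gram (l.map (toV d))).det.natAbs ≤ 2 ^ eb d X ∧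
      ∀ i j, ((gram (l.map (toV d))).adjugate i j).natAbs ≤ 2 ^ eb d X := by
  have hlen : l.length ≤ X := by
    have := length_lt_sz l
    omega
  have h1 : ∀ i j, ((gram (l.map (toV d))) i j).natAbs ≤ 2 ^ (3 * X + 1) := by
    intro i j
    refine (natAbs_gram_le (B := 2 ^ X) _ ?_ i j).trans ?_
    · intro x hx k
      obtain ⟨y, hy, rfl⟩ := List.mem_map.1 hx
      have := sz_le_of_mem hy
      exact getD_le_of_sz (by omega) _
    · rw [List.length_map]
      have h2 : X < 2 ^ X := Nat.lt_two_pow_self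
      have h3 : l.length * (2 ^ X * 2 ^ X) ≤ 2 ^ X * (2 ^ X * 2 ^ X) :=
        Nat.mul_le_mul_right _ (by omega)
      have h4 : 2 ^ (3 * X + 1) = 2 * (2 ^ X * (2 ^ X * 2 ^ X)) := by
        rw [← pow_add, ← pow_add, ← pow_succ']
        congr 1
        ring
      have h5 : 1 ≤ 2 ^ X * (2 ^ X * 2 ^ X) := Nat.one_le_iff_ne_zero.2 (by positivity)
      omega
  have h2 : d.factorial * (2 ^ (3 * X + 1)) ^ d ≤ 2 ^ eb d X := by
    unfold eb
    rw [← pow_mul, pow_add 2 (d * d)]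
    refine Nat.mul_le_mul_right _ ?_
    calc d.factorial ≤ d ^ d := Nat.factorial_le_pow d
      _ ≤ (2 ^ d) ^ d := Nat.pow_le_pow_left Nat.lt_two_pow_self.le d
      _ = 2 ^ (d * d) := by rw [pow_mul]
  exact ⟨(natAbs_det_le h1).trans h2, fun i j => (natAbs_adj_le Nat.one_le_two_pow h1 i j).trans h2⟩

theorem sz_int_le_of {c : ℤ} {e : ℕ} (h : c.natAbs ≤ 2 ^ e) : sz c ≤ 4 * e + 9 := by
  have h1 := sz_int_le c
  have h2 : c.natAbs.size ≤ e + 1 := Nat.size_le.2 (lt_of_le_of_lt h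
    (Nat.pow_lt_pow_right (by norm_num) (by omega)))
  omega

theorem sz_mats_le {d X : ℕ} {l : List (List ℤ)} (h : sz l ≤ X) :
    sz (mats d l) ≤ (4 * eb d X + 9) + (d * (d * (4 * eb d X + 10) + 2) + 1) + 1 := by
  obtain ⟨h1, h2⟩ := det_bounds (d := d) h
  rw [mats_spec, sz_pair]
  refine Nat.add_le_add_right (Nat.add_le_add (sz_int_le_of h1) ?_) 1
  have h3 : (mlst (gram (l.map (toV d))).adjugate).length = d := by simp [mlst]
  refine (sz_le_length_mul _ (d * (4 * eb d X + 10) + 1) ?_).trans (by rw [h3])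
  intro r hr
  obtain ⟨i, rfl⟩ := (List.mem_ofFn' _ _).1 hr
  refine (sz_le_length_mul _ (4 * eb d X + 9) ?_).trans (by simp)
  intro c hc
  obtain ⟨j, rfl⟩ := (List.mem_ofFn' _ _).1 hc
  exact sz_int_le_of (h2 i j)

variable {α τ : Type} [TEnc α] [TEnc τ]

theorem dotL_poly {x y : α → List ℤ} (hx : NPC.Poly x) (hy : NPC.Poly y) :
    NPC.Poly (fun a => dotL (x a) (y a)) := NPC.Poly.dot hx hy

theorem mv_poly {C : α → List (List ℤ)} {x : α → List ℤ} (hC : NPC.Poly C) (hx : NPC.Poly x) :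
    NPC.Poly (fun a => mv (C a) (x a)) := by
  unfold mv
  exact NPC.Poly.map (F := fun a r => dotL r (x a)) hC
    (dotL_poly (NPC.Poly.snd NPC.Poly.id) (hx.comp (NPC.Poly.fst NPC.Poly.id)))

theorem upd_poly {s : α → ℤ × List (List ℤ)} {x : α → List ℤ} (hs : NPC.Poly s)
    (hx : NPC.Poly x) : NPC.Poly (fun a => upd (s a) (x a)) := by
  unfold upd
  have h1 := NPC.Poly.fst hs
  have h2 := mv_poly (NPC.Poly.snd hs) hx
  have h3 := NPC.Poly.iadd h1 (dotL_poly hx h2)
  refine NPC.Poly.pair h3 ?_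
  refine NPC.Poly.zipWith (F := fun a r yi => List.zipWith (fun c yj =>
    (((s a).1 + dotL (x a) (mv (s a).2 (x a))) * c - yi * yj) / (((s a).1.natAbs : ℕ) : ℤ)) r
      (mv (s a).2 (x a))) (NPC.Poly.snd hs) h2 ?_
  have e1 : NPC.Poly (fun p : α × List ℤ × ℤ => p.1) := NPC.Poly.fst NPC.Poly.id
  refine NPC.Poly.zipWith (F := fun (p : α × List ℤ × ℤ) c yj =>
    (((s p.1).1 + dotL (x p.1) (mv (s p.1).2 (x p.1))) * c - p.2.2 * yj) /
      (((s p.1).1.natAbs : ℕ) : ℤ)) (NPC.Poly.fst (NPC.Poly.snd NPC.Poly.id)) (h2.comp e1) ?_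
  have f1 : NPC.Poly (fun p : (α × List ℤ × ℤ) × ℤ × ℤ => p.1.1) :=
    NPC.Poly.fst (NPC.Poly.fst NPC.Poly.id)
  exact NPC.Poly.idiv (NPC.Poly.isub (NPC.Poly.imul (h3.comp f1)
    (NPC.Poly.fst (NPC.Poly.snd NPC.Poly.id))) (NPC.Poly.imul
      (NPC.Poly.snd (NPC.Poly.snd (NPC.Poly.fst NPC.Poly.id)))
      (NPC.Poly.snd (NPC.Poly.snd NPC.Poly.id)))) (NPC.Poly.natAbs (h1.comp f1))

theorem nrm_poly {d : α → ℕ} {x : α → List ℤ} (hd : UPoly d) (hx : NPC.Poly x) :
    NPC.Poly (fun a => nrm (d a) (x a)) := by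
  unfold nrm
  exact NPC.Poly.map (F := fun a i => (x a).getD i 0) hd.range
    (NPC.Poly.getD (hx.comp (NPC.Poly.fst NPC.Poly.id)) (NPC.Poly.snd NPC.Poly.id)
      (NPC.Poly.const 0))

theorem ident_poly {d : α → ℕ} (hd : UPoly d) : NPC.Poly (fun a => ident (d a)) := by
  unfold ident
  refine NPC.Poly.map (F := fun a i => (List.range (d a)).map fun j => if i = j then (1 : ℤ) else 0)
    hd.range ?_
  refine NPC.Poly.map (F := fun (p : α × ℕ) j => if p.2 = j then (1 : ℤ) else 0)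
    ((hd.comp (NPC.Poly.fst NPC.Poly.id)).range) ?_
  exact NPC.Poly.ite (NPC.Poly.dec_eq (NPC.Poly.snd (NPC.Poly.fst NPC.Poly.id))
    (NPC.Poly.snd NPC.Poly.id)) (NPC.Poly.const 1) (NPC.Poly.const 0)

/-- A bound for the size of a list with unary length. -/
theorem uPoly_le {d : α → ℕ} (hd : UPoly d) : ∃ q : Polynomial ℕ, ∀ a, d a ≤ q.eval (sz a) := by
  obtain ⟨q, hq⟩ := NPC.Poly.sz_le hd
  refine ⟨q, fun a => ?_⟩
  have h1 := hq a
  have h2 := length_lt_sz (List.replicate (d a) ())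
  rw [List.length_replicate] at h2
  omega

theorem eb_mono {d d' X X' : ℕ} (h : d ≤ d') (h' : X ≤ X') : eb d X ≤ eb d' X' := by
  unfold eb
  gcongr

theorem mats_poly {d : α → ℕ} {l : α → List (List ℤ)} (hd : UPoly d) (hl : NPC.Poly l) :
    NPC.Poly (fun a => mats (d a) (l a)) := by
  obtain ⟨qd, hqd⟩ := uPoly_le hd
  obtain ⟨ql, hql⟩ := hl.sz_le
  unfold mats
  have h1 : NPC.Poly (fun a => (l a).map (nrm (d a))) :=
    NPC.Poly.map (F := fun a x => nrm (d a) x) hl (nrm_poly (hd.comp (NPC.Poly.fst NPC.Poly.id))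
      (NPC.Poly.snd NPC.Poly.id))
  set QE : Polynomial ℕ := qd * qd + (Polynomial.C 3 * ql + Polynomial.C 1) * qd with hQE
  refine NPC.Poly.foldl (F := fun (_ : α) s x => upd s x) h1
    (NPC.Poly.pair (NPC.Poly.const 1) (ident_poly hd)) (upd_poly (NPC.Poly.fst (NPC.Poly.snd NPC.Poly.id))
      (NPC.Poly.snd (NPC.Poly.snd NPC.Poly.id)))
    ((Polynomial.C 4 * QE + Polynomial.C 9) + (qd * (qd * (Polynomial.C 4 * QE +
      Polynomial.C 10) + Polynomial.C 2) + Polynomial.C 1) + Polynomial.C 1) ?_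
  intro a k hk
  have h2 : (((l a).map (nrm (d a))).take k).foldl upd (1, ident (d a)) =
      mats (d a) ((l a).take k) := by
    unfold mats
    rw [List.map_take]
  have h3 : sz ((l a).take k) ≤ ql.eval (sz a) := by
    refine le_trans ?_ (hql a)
    exact H579R2.Spt.sz_le_of_sublist (List.take_sublist k (l a))
  have e : (fun s x => upd s x) = upd := rfl
  rw [e, h2]
  refine (sz_mats_le h3).trans ?_
  have h4 : eb (d a) (ql.eval (sz a)) ≤ QE.eval (sz a) := by
    have h5 : QE.eval (sz a) = eb (qd.eval (sz a)) (ql.eval (sz a)) := by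
      rw [hQE]
      simp [eb]
    rw [h5]
    exact eb_mono (hqd a) le_rfl
  have h6 := hqd a
  simp only [Polynomial.eval_add, Polynomial.eval_mul, Polynomial.eval_C]
  gcongr

theorem lev_poly {d : α → ℕ} {C : α → List (List ℤ)} {x : α → List ℤ} (hd : UPoly d)
    (hC : NPC.Poly C) (hx : NPC.Poly x) : NPC.Poly (fun a => lev (d a) (C a) (x a)) := by
  unfold lev
  have h1 := nrm_poly hd hx
  exact dotL_poly h1 (mv_poly hC h1)

end Pool.Agent.Helper49.HS
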