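import Pool.Agent.Helper49.HS.Adj
import Pool.Agent.Helper49.KM.Bessel

/-!
# Quadratic forms of `1 + ∑ x xᵀ` and of its adjugate
-/

set_option autoImplicit false

namespace Pool.Agent.Helper49.HS

open Matrix

variable {d : ℕ}

/-- The value of the quadratic form of the adjugate. -/
def qf (A : Matrix (Fin d) (Fin d) ℤ) (x : Fin d → ℤ) : ℤ := x ⬝ᵥ (A.adjugate *ᵥ x)

theorem rm_adj_posDef {S : List (Fin d → ℤ)} : (rm (gram S).adjugate).PosDef := by
  have h1 := (gram_posDef S).inv
  have hd : (0 : ℝ) < ((gram S).det : ℤ) := by exact_mod_cast gram_det_pos S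
  have h2 := h1.smul hd
  have h3 : (((gram S).det : ℤ) : ℝ) • (rm (gram S))⁻¹ = rm (gram S).adjugate := by
    rw [Matrix.inv_def, rm_adj, rm_det, Ring.inverse_eq_inv', smul_smul,
      mul_inv_cancel₀ hd.ne', one_smul]
  rwa [h3] at h2

theorem qf_cast (A : Matrix (Fin d) (Fin d) ℤ) (x : Fin d → ℤ) :
    ((qf A x : ℤ) : ℝ) = rv x ⬝ᵥ (rm A.adjugate *ᵥ rv x) := by
  rw [rm_mulVec, rv_dot]
  rfl

theorem form_nonneg {A : Matrix (Fin d) (Fin d) ℝ} (h : A.PosSemidef) (x : Fin d → ℝ) :
    0 ≤ x ⬝ᵥ (A *ᵥ x) := by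
  have := h.dotProduct_mulVec_nonneg x
  have h1 : star x = x := by funext i; simp
  rwa [h1] at this

theorem qf_nonneg (S : List (Fin d → ℤ)) (x : Fin d → ℤ) : 0 ≤ qf (gram S) x := by
  have h := form_nonneg (rm_adj_posDef (S := S)).posSemidef (rv x)
  rw [← qf_cast] at h
  exact_mod_cast h

theorem form_symm {A : Matrix (Fin d) (Fin d) ℝ} (h : Aᵀ = A) (x y : Fin d → ℝ) :
    x ⬝ᵥ (A *ᵥ y) = y ⬝ᵥ (A *ᵥ x) := by
  rw [Matrix.dotProduct_mulVec, ← Matrix.mulVec_transpose, h, dotProduct_comm]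

/-- The inequality of Cauchy and Schwarz for a form and its dual. -/
theorem cs {A C : Matrix (Fin d) (Fin d) ℝ} {δ : ℝ} (hA : A.PosSemidef) (hAs : Aᵀ = A)
    (hδ : 0 < δ) (hC : A * C = δ • 1) (z v : Fin d → ℝ) :
    δ * (z ⬝ᵥ v) ^ 2 ≤ (z ⬝ᵥ (A *ᵥ z)) * (v ⬝ᵥ (C *ᵥ v)) := by
  set w := C *ᵥ v with hw
  set Q := z ⬝ᵥ (A *ᵥ z) with hQ
  set c := v ⬝ᵥ w with hc
  set b := z ⬝ᵥ v with hb
  have hAw : A *ᵥ w = δ • v := by
    rw [hw, Matrix.mulVec_mulVec, hC, Matrix.smul_mulVec, Matrix.one_mulVec]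
  have h1 : ∀ l : ℝ, 0 ≤ Q - 2 * l * δ * b + l ^ 2 * δ * c := by
    intro l
    have h2 := form_nonneg hA (z - l • w)
    have h3 : (z - l • w) ⬝ᵥ (A *ᵥ (z - l • w)) = Q - 2 * l * δ * b + l ^ 2 * δ * c := by
      rw [Matrix.mulVec_sub, Matrix.mulVec_smul, hAw, dotProduct_sub, sub_dotProduct,
        sub_dotProduct, smul_dotProduct, smul_dotProduct]
      have e1 : w ⬝ᵥ (A *ᵥ z) = δ * b := by
        rw [form_symm hAs, hAw, dotProduct_smul, smul_eq_mul]
      have e2 : z ⬝ᵥ (l • δ • v) = l * δ * b := by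
        rw [dotProduct_smul, dotProduct_smul]
        simp only [smul_eq_mul]
        ring
      have e3 : w ⬝ᵥ (l • δ • v) = l * δ * c := by
        rw [dotProduct_smul, dotProduct_smul, dotProduct_comm]
        simp only [smul_eq_mul]
        ring
      rw [e1, e2, e3, ← hQ]
      simp only [smul_eq_mul]
      ring
    rwa [h3] at h2
  by_cases hc0 : c = 0
  · rw [hc0] at h1 ⊢
    rw [mul_zero]
    by_contra hcon
    have hb0 : b ≠ 0 := by
      intro h
      rw [h] at hcon
      simp at hcon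
    have h2 := h1 ((Q + 1) / (2 * δ * b))
    have h3 : 2 * ((Q + 1) / (2 * δ * b)) * δ * b = Q + 1 := by
      field_simp
    rw [h3] at h2
    linarith
  · have h0 := h1 0
    have hQ0 : 0 ≤ Q := by linarith
    have h2 := h1 (b / c)
    have h3 : Q - 2 * (b / c) * δ * b + (b / c) ^ 2 * δ * c = Q - δ * b ^ 2 / c := by
      field_simp
      ring
    rw [h3] at h2
    have hcpos : 0 < c := by
      rcases lt_trichotomy c 0 with h | h | h
      · exfalso
        have h4 := h1 (-(Q + 1 + 2 * |b|) / (δ * c) + 0)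
        have h5 := h1 ((Q + 1) / (δ * b))
        -- use large multiples
        have key : ∀ l : ℝ, l ^ 2 * δ * c ≥ 2 * l * δ * b - Q := fun l => by
          have := h1 l
          linarith
        have k1 := h1 ((2 * |b| + Q + 1) / (-c) / 1)
        by_cases hbb : b = 0
        · rw [hbb] at key
          have := key (Q + 1 + 1 / (δ * (-c)))
          have h6 : 0 < δ * (-c) := mul_pos hδ (by linarith)
          have h7 : 0 < 1 / (δ * (-c)) := by positivity
          have h8 : (Q + 1 + 1 / (δ * (-c))) ^ 2 * (δ * (-c)) ≤ Q := by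
            simp only [mul_zero] at this
            nlinarith
          have h9 : (1 / (δ * (-c))) * (δ * (-c)) = 1 := by
            rw [one_div, inv_mul_cancel₀ h6.ne']
          nlinarith [mul_pos h7 h6, mul_nonneg hQ0 h6.le]
        · have h6 : 0 < δ * (-c) := mul_pos hδ (by linarith)
          rcases lt_or_gt_of_ne hbb with hb1 | hb1
          · have k := key (-(Q / (2 * δ * (-b)) + 1))
            have h7 : 0 < 2 * δ * (-b) := by
              have : 0 < -b := by linarith
              positivity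
            have h8 : Q / (2 * δ * (-b)) * (2 * δ * (-b)) = Q := div_mul_cancel₀ _ h7.ne'
            nlinarith [sq_nonneg (Q / (2 * δ * (-b)) + 1), mul_nonneg (sq_nonneg
              (Q / (2 * δ * (-b)) + 1)) h6.le]
          · have k := key (Q / (2 * δ * b) + 1)
            have h7 : 0 < 2 * δ * b := by positivity
            have h8 : Q / (2 * δ * b) * (2 * δ * b) = Q := div_mul_cancel₀ _ h7.ne'
            nlinarith [sq_nonneg (Q / (2 * δ * b) + 1), mul_nonneg (sq_nonneg
              (Q / (2 * δ * b) + 1)) h6.le]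
      · exact absurd h hc0
      · exact h
    have h4 : δ * b ^ 2 / c ≤ Q := by linarith
    rwa [div_le_iff₀ hcpos] at h4

end Pool.Agent.Helper49.HS
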