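import Pool.Agent.Helper49.HS.Clean
import Pool.Agent.Helper49.HS.Count
import Pool.Agent.Helper49.HS.Mats
import Pool.Agent.Helper49.KM.Search

/-!
# Search for the prefixes of a hidden string with a hidden linear functional
-/

set_option autoImplicit false

namespace Pool.Agent.Helper49.HS

open Matrix Finset
open Pool.Agent.H579R2.Spt (sgn tests mem_tests lab lab_orth children mem_children
  children_nodup)

variable {d : ℕ} {τ : Type}

/-- The test for high leverage. -/
def hiB (d κ : ℕ) (vf : τ → List ℤ) (S : List τ) (t : τ) : Bool :=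
  decide ((mats d (S.map vf)).1 < (κ : ℤ) * lev d (mats d (S.map vf)).2 (vf t))

/-- The signed sum. -/
def sgL (d : ℕ) (vf : τ → List ℤ) (sg : τ → ℤ) (S : List τ) : List ℤ :=
  (List.range d).map fun i => (S.map fun t => sg t * (vf t).getD i 0).sum

/-- The test for a large signed sum. -/
def keepH (d κ : ℕ) (vf : τ → List ℤ) (sg : τ → ℤ) (S : List τ) : Bool :=
  decide ((κ : ℤ) * (mats d (S.map vf)).1 ≤ 4 * lev d (mats d (S.map vf)).2 (sgL d vf sg S))

theorem mats_map (vf : τ → List ℤ) (S : List τ) : mats d (S.map vf) =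
    ((gram (S.map fun t => toV d (vf t))).det,
      mlst (gram (S.map fun t => toV d (vf t))).adjugate) := by
  rw [mats_spec, List.map_map]
  rfl

theorem hiB_iff (κ : ℕ) (vf : τ → List ℤ) (S : List τ) (t : τ) : hiB d κ vf S t = true ↔
    (gram (S.map fun t => toV d (vf t))).det <
      κ * qf (gram (S.map fun t => toV d (vf t))) (toV d (vf t)) := by
  unfold hiB
  rw [decide_eq_true_eq, mats_map, lev_spec]
  rfl

theorem toV_sgL (vf : τ → List ℤ) (sg : τ → ℤ) (S : List τ) :
    toV d (sgL d vf sg S) = sgsum S (fun t => toV d (vf t)) sg := by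
  funext i
  unfold toV sgL sgsum
  rw [List.getD_eq_getElem _ _ (by simp)]
  simp

theorem keepH_iff (κ : ℕ) (vf : τ → List ℤ) (sg : τ → ℤ) (S : List τ) :
    keepH d κ vf sg S = true ↔ κ * (gram (S.map fun t => toV d (vf t))).det ≤
      4 * qf (gram (S.map fun t => toV d (vf t))) (sgsum S (fun t => toV d (vf t)) sg) := by
  unfold keepH
  rw [decide_eq_true_eq, mats_map, lev_spec, toV_sgL]
  rfl

/-- The test for keeping a string. -/
def keep (vf : ℕ → ℕ × ℕ → List ℤ) (d κ P T : ℕ) (u : List Bool) : Bool :=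
  keepH d κ (vf u.length) (fun t => sgn (lab P t u))
    (clean (hiB d κ (vf u.length)) (tests P T))

/-- The next level. -/
def next (K : List Bool → Bool) (M : ℕ) (W : List (List Bool)) : List (List Bool) :=
  if ((children W).filter K).length ≤ M then (children W).filter K else []

/-- The levels of the search. -/
def level (K : List Bool → Bool) (M j : ℕ) : List (List Bool) := (next K M)^[j] [[]]

theorem next_subset (K : List Bool → Bool) (M : ℕ) (W : List (List Bool)) :
    ∀ u ∈ next K M W, u ∈ children W := by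
  intro u hu
  unfold next at hu
  split_ifs at hu
  · exact (List.mem_filter.1 hu).1
  · simp at hu

theorem next_length (K : List Bool → Bool) (M : ℕ) (W : List (List Bool)) :
    (next K M W).length ≤ M := by
  unfold next
  split_ifs with h
  · exact h
  · simp

theorem next_nodup (K : List Bool → Bool) (M : ℕ) {W : List (List Bool)} (h : W.Nodup) :
    (next K M W).Nodup := by
  unfold next
  split_ifs
  · exact (children_nodup h).filter _
  · simp

/-- General properties of the levels. -/
theorem level_inv (K : List Bool → Bool) (M j : ℕ) :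
    (∀ u ∈ level K M j, u.length = j) ∧ (level K M j).length ≤ max 1 M ∧
      (level K M j).Nodup := by
  unfold level
  induction j with
  | zero => simp
  | succ j ih =>
    rw [Function.iterate_succ_apply']
    obtain ⟨h1, h2, h3⟩ := ih
    refine ⟨?_, (next_length K M _).trans (le_max_right _ _), next_nodup K M h3⟩
    intro u hu
    obtain ⟨u', hu', b, rfl⟩ := mem_children.1 (next_subset K M _ u hu)
    simp [h1 u' hu']

/-- The assumptions under which the search keeps the prefixes of `w`. -/
def Sees (vf : ℕ → ℕ × ℕ → List ℤ) (d P T : ℕ) (w : List Bool) : Prop :=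
  ∀ j ≤ w.length, ∀ S : List (ℕ × ℕ), S.Nodup → S ≠ [] → (∀ t ∈ S, t ∈ tests P T) →
    ∃ z : Fin d → ℝ, z ⬝ᵥ z ≤ (S.map fun t => (z ⬝ᵥ rv (toV d (vf j t))) ^ 2).sum ∧
      ∀ t ∈ S, 1 ≤ ((sgn (lab P t (w.take j)) : ℤ) : ℝ) * (z ⬝ᵥ rv (toV d (vf j t)))

theorem tests_length (P T : ℕ) : (tests P T).length = P * T := by
  rw [← List.toFinset_card_of_nodup (KM.tests_nodup P T), KM.tests_toFinset,
    Finset.card_product, Finset.card_range, Finset.card_range]

theorem next_mem {vf : ℕ → ℕ × ℕ → List ℤ} {P k lam : ℕ} {w : List Bool}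
    (hg : Sees vf d P (2 ^ k) w) (hP : P.Prime) (hk : P ≤ 2 ^ k) (hd : 1 ≤ d) {κ : ℕ}
    (hκ : κ = 8 * d * (2 ^ k * w.length))
    (htr : ∀ j ≤ w.length, (gram ((tests P (2 ^ k)).map fun t => toV d (vf j t))).trace ≤ 2 ^ lam)
    (hbig : 8 * d * w.length * (d * lam + 1) ≤ P) (j : ℕ) (hj : j + 1 ≤ w.length)
    (W : List (List Bool)) (hW : ∀ u ∈ W, u.length = j) (hW2 : W.Nodup)
    (hmem : w.take j ∈ W) : w.take (j + 1) ∈ next (keep vf d κ P (2 ^ k)) P W := by
  have hlen : ∀ u ∈ children W, u.length = j + 1 := by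
    intro u hu
    obtain ⟨u', hu', b, rfl⟩ := mem_children.1 hu
    simp [hW u' hu']
  have h2k : 0 < 2 ^ k := by positivity
  have hκ2 : 2 ≤ κ := by
    rw [hκ]
    have : 1 ≤ d * (2 ^ k * w.length) := Nat.mul_pos hd (Nat.mul_pos h2k (by omega))
    calc 2 ≤ 8 * (d * (2 ^ k * w.length)) := by omega
      _ = _ := by ring
  set x : ℕ × ℕ → Fin d → ℤ := fun t => toV d (vf (j + 1) t) with hx
  set S := clean (hiB d κ (vf (j + 1))) (tests P (2 ^ k)) with hS
  obtain ⟨hS1, hS2, hS3, hS4⟩ := clean_spec (hi := hiB d κ (vf (j + 1))) (x := x) hκ2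
    (fun S t => hiB_iff κ (vf (j + 1)) S t) (KM.tests_nodup P (2 ^ k)) (L := d * lam + 1) (by
      have h1 := det_le_trace_pow ((tests P (2 ^ k)).map x)
      have h2 := htr (j + 1) hj
      have h3 : (0 : ℤ) ≤ (gram ((tests P (2 ^ k)).map x)).trace := by
        rw [trace_gram]
        have : 0 ≤ (((tests P (2 ^ k)).map x).map fun x => x ⬝ᵥ x).sum :=
          List.sum_nonneg fun a ha => by
            obtain ⟨y, _, rfl⟩ := List.mem_map.1 ha
            exact Finset.sum_nonneg fun i _ => mul_self_nonneg _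
        positivity
      have h4 : (gram ((tests P (2 ^ k)).map x)).trace ^ d ≤ (2 ^ lam) ^ d :=
        pow_le_pow_left₀ h3 h2 d
      have h5 : ((2 : ℤ) ^ lam) ^ d < 2 ^ (d * lam + 1) := by
        rw [← pow_mul, mul_comm lam d]
        exact pow_lt_pow_right₀ (by norm_num) (by omega)
      exact (h1.trans h4).trans_lt h5) (by
      rw [tests_length, hκ]
      calc 8 * d * (2 ^ k * w.length) * (d * lam + 1) =
          (8 * d * w.length * (d * lam + 1)) * 2 ^ k := by ring
        _ ≤ P * 2 ^ k := Nat.mul_le_mul_right _ hbig)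
  rw [← hS] at hS1 hS2 hS3 hS4
  have hkeepiff : ∀ u : List Bool, u.length = j + 1 → (keep vf d κ P (2 ^ k) u = true ↔
      κ * (gram (S.map x)).det ≤
        4 * qf (gram (S.map x)) (sgsum S x fun t => sgn (lab P t u))) := by
    intro u hu
    unfold keep
    rw [hu, ← hS]
    exact keepH_iff κ (vf (j + 1)) _ S
  -- the true node is kept
  have hl : (w.take (j + 1)).length = j + 1 := by rw [List.length_take]; omega
  have hkeep : keep vf d κ P (2 ^ k) (w.take (j + 1)) = true := by
    rw [hkeepiff _ hl]
    obtain ⟨z, hz1, hz2⟩ := hg (j + 1) hj S hS2 hS1 hS3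
    exact energy hS1 hz1 hz2 (fun t _ => H579R2.Spt.sgn_mul_self _) (by omega) hS4
  have hchild : w.take (j + 1) ∈ children W := by
    refine mem_children.2 ⟨w.take j, hmem, w[j], ?_⟩
    rw [List.take_succ_eq_append_getElem (by omega)]
  -- few nodes are kept
  set W' := (children W).filter (keep vf d κ P (2 ^ k)) with hW'
  have hcount : W'.length ≤ P := by
    have hnd : W'.Nodup := (children_nodup hW2).filter _
    have hcard : W'.toFinset.card = W'.length := List.toFinset_card_of_nodup hnd
    have hokall : ∀ u ∈ W'.toFinset, keep vf d κ P (2 ^ k) u = true ∧ u.length = j + 1 := by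
      intro u hu
      rw [List.mem_toFinset, hW', List.mem_filter] at hu
      exact ⟨hu.2, hlen u hu.1⟩
    have hc := count_le (Θ := range P ×ˢ range (2 ^ k)) hS2
      (fun t ht => by rw [← mem_tests]; exact hS3 t ht) x W'.toFinset
      (fun t u => sgn (lab P t u)) (2 ^ k * w.length) (fun t _ v _ => H579R2.Spt.sgn_mul_self _)
      (fun u hu v hv huv => by
        have e1 := (hokall u hu).2
        have e2 := (hokall v hv).2
        have e3 := lab_orth hP hk u v (e1.trans e2.symm) huv
        refine e3.trans ?_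
        rw [e1]
        have : 2 ^ k * (j + 1) ≤ 2 ^ k * w.length := Nat.mul_le_mul_left _ hj
        exact_mod_cast this) (κ := κ) (fun v hv => by
        obtain ⟨e1, e2⟩ := hokall v hv
        exact (hkeepiff v e2).1 e1)
    rw [Finset.card_product, Finset.card_range, Finset.card_range, hκ, hcard] at hc
    set c := W'.length with hc'
    have h1 : 4 * d * 2 ^ k * (c * w.length) ≤ 4 * d * 2 ^ k * P := by nlinarith
    have h2 : c * w.length ≤ P := Nat.le_of_mul_le_mul_left h1 (by positivity)
    exact (Nat.le_mul_of_pos_right c (by omega)).trans h2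
  unfold next
  rw [if_pos hcount]
  exact List.mem_filter.2 ⟨hchild, hkeep⟩

theorem level_mem {vf : ℕ → ℕ × ℕ → List ℤ} {P k lam : ℕ} {w : List Bool}
    (hg : Sees vf d P (2 ^ k) w) (hP : P.Prime) (hk : P ≤ 2 ^ k) (hd : 1 ≤ d) {κ : ℕ}
    (hκ : κ = 8 * d * (2 ^ k * w.length))
    (htr : ∀ j ≤ w.length, (gram ((tests P (2 ^ k)).map fun t => toV d (vf j t))).trace ≤ 2 ^ lam)
    (hbig : 8 * d * w.length * (d * lam + 1) ≤ P) :
    w ∈ level (keep vf d κ P (2 ^ k)) P w.length := by
  have key : ∀ j ≤ w.length, w.take j ∈ level (keep vf d κ P (2 ^ k)) P j := by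
    intro j
    induction j with
    | zero => intro _; simp [level]
    | succ j ih =>
      intro hj
      obtain ⟨h1, _, h3⟩ := level_inv (keep vf d κ P (2 ^ k)) P j
      have h5 := ih (by omega)
      have h6 := next_mem hg hP hk hd hκ htr hbig j hj _ h1 h3 h5
      unfold level at h6 ⊢
      rw [Function.iterate_succ_apply']
      exact h6
  have := key w.length le_rfl
  rwa [List.take_length] at this

end Pool.Agent.Helper49.HS
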