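import Pool.Agent.Helper49.HS.Search
import Pool.Agent.Helper49.HS.MatsPoly

/-!
# The search is polynomial
-/

set_option autoImplicit false

namespace Pool.Agent.Helper49.HS

open Pool.Agent.NPC
open Pool.Agent.H579R2.Spt (sgn tests lab tests_poly lab_poly children children_poly)

theorem stepS_sublist {τ : Type} [DecidableEq τ] (hi : List τ → τ → Bool) (S : List τ) :
    (stepS hi S).Sublist S := by
  unfold stepS
  cases (S.filter (hi S)).head? with
  | none => exact List.Sublist.refl _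
  | some e => exact List.filter_sublist

theorem iter_stepS_sublist {τ : Type} [DecidableEq τ] (hi : List τ → τ → Bool) (S : List τ)
    (i : ℕ) : ((stepS hi)^[i] S).Sublist S := by
  induction i with
  | zero => exact List.Sublist.refl _
  | succ i ih =>
    rw [Function.iterate_succ_apply']
    exact (stepS_sublist hi _).trans ih

variable {α τ : Type} [TEnc α] [TEnc τ] [DecidableEq τ]

section

variable {d κ : α → ℕ} {vf : α → τ → List ℤ} {S : α → List τ}

omit [DecidableEq τ] in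
theorem mapvf_poly (hvf : NPC.Poly (fun p : α × τ => vf p.1 p.2)) (hS : NPC.Poly S) :
    NPC.Poly (fun a => (S a).map (vf a)) := NPC.Poly.map (F := fun a t => vf a t) hS hvf

omit [DecidableEq τ] in
theorem hiB_poly {t : α → τ} (hd : UPoly d) (hκ : NPC.Poly κ)
    (hvf : NPC.Poly (fun p : α × τ => vf p.1 p.2)) (hS : NPC.Poly S) (ht : NPC.Poly t) :
    NPC.Poly (fun a => hiB (d a) (κ a) (vf a) (S a) (t a)) := by
  unfold hiB
  have h1 := mats_poly hd (mapvf_poly hvf hS)
  have h2 : NPC.Poly (fun a => vf a (t a)) := hvf.comp (NPC.Poly.pair NPC.Poly.id ht)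
  exact NPC.Poly.ilt (NPC.Poly.fst h1) (NPC.Poly.imul (NPC.Poly.natCast hκ)
    (lev_poly hd (NPC.Poly.snd h1) h2))

theorem stepS_poly (hd : UPoly d) (hκ : NPC.Poly κ)
    (hvf : NPC.Poly (fun p : α × τ => vf p.1 p.2)) (hS : NPC.Poly S) :
    NPC.Poly (fun a => stepS (hiB (d a) (κ a) (vf a)) (S a)) := by
  unfold stepS
  have e1 : NPC.Poly (fun p : α × τ => p.1) := NPC.Poly.fst NPC.Poly.id
  have e2 : NPC.Poly (fun p : α × τ => p.2) := NPC.Poly.snd NPC.Poly.id
  have hvf' : NPC.Poly (fun p : (α × τ) × τ => vf p.1.1 p.2) :=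
    hvf.comp (NPC.Poly.pair (NPC.Poly.fst (NPC.Poly.fst NPC.Poly.id)) (NPC.Poly.snd NPC.Poly.id))
  have h1 : NPC.Poly (fun a => (S a).filter (hiB (d a) (κ a) (vf a) (S a))) :=
    NPC.Poly.filter (p := fun a t => hiB (d a) (κ a) (vf a) (S a) t) hS
      (hiB_poly (d := fun p : α × τ => d p.1) (κ := fun p => κ p.1) (vf := fun p t => vf p.1 t)
        (S := fun p => S p.1) (t := fun p => p.2) (hd.comp e1) (hκ.comp e1) hvf' (hS.comp e1) e2)
  refine NPC.Poly.optElim (o := fun a => ((S a).filter (hiB (d a) (κ a) (vf a) (S a))).head?)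
    (g := S) (h := fun a e => (S a).filter fun t => decide (t ≠ e)) (NPC.Poly.head? h1) hS ?_
  refine NPC.Poly.filter (p := fun (p : α × τ) t => decide (t ≠ p.2)) (hS.comp e1) ?_
  refine (NPC.Poly.not (NPC.Poly.dec_eq (f := fun p : (α × τ) × τ => p.2)
    (g := fun p => p.1.2) (NPC.Poly.snd NPC.Poly.id)
      (NPC.Poly.snd (NPC.Poly.fst NPC.Poly.id)))).congr fun p => ?_
  simp only [ne_eq, decide_not]

theorem clean_poly (hd : UPoly d) (hκ : NPC.Poly κ)
    (hvf : NPC.Poly (fun p : α × τ => vf p.1 p.2)) (hS : NPC.Poly S) :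
    NPC.Poly (fun a => clean (hiB (d a) (κ a) (vf a)) (S a)) := by
  unfold clean
  obtain ⟨q, hq⟩ := hS.sz_le
  have e1 : NPC.Poly (fun p : α × List τ => p.1) := NPC.Poly.fst NPC.Poly.id
  have e2 : NPC.Poly (fun p : α × List τ => p.2) := NPC.Poly.snd NPC.Poly.id
  have hvf' : NPC.Poly (fun p : (α × List τ) × τ => vf p.1.1 p.2) :=
    hvf.comp (NPC.Poly.pair (NPC.Poly.fst (NPC.Poly.fst NPC.Poly.id)) (NPC.Poly.snd NPC.Poly.id))
  refine NPC.Poly.iterLen (l := S) (s := S)
    (F := fun a s => stepS (hiB (d a) (κ a) (vf a)) s) hS hS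
    (stepS_poly (d := fun p : α × List τ => d p.1) (κ := fun p => κ p.1)
      (vf := fun p t => vf p.1 t) (S := fun p => p.2) (hd.comp e1) (hκ.comp e1) hvf' e2) q ?_
  intro a k _
  have e : (fun s => stepS (hiB (d a) (κ a) (vf a)) s) = stepS (hiB (d a) (κ a) (vf a)) := rfl
  rw [e]
  exact (H579R2.Spt.sz_le_of_sublist (iter_stepS_sublist _ _ _)).trans (hq a)

omit [DecidableEq τ] in
theorem keepH_poly {sg : α → τ → ℤ} (hd : UPoly d) (hκ : NPC.Poly κ)
    (hvf : NPC.Poly (fun p : α × τ => vf p.1 p.2)) (hsg : NPC.Poly (fun p : α × τ => sg p.1 p.2))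
    (hS : NPC.Poly S) : NPC.Poly (fun a => keepH (d a) (κ a) (vf a) (sg a) (S a)) := by
  unfold keepH
  have h1 := mats_poly hd (mapvf_poly hvf hS)
  have e1 : NPC.Poly (fun p : α × ℕ => p.1) := NPC.Poly.fst NPC.Poly.id
  have h2 : NPC.Poly (fun a => sgL (d a) (vf a) (sg a) (S a)) := by
    unfold sgL
    refine NPC.Poly.map (F := fun a i => ((S a).map fun t => sg a t * (vf a t).getD i 0).sum)
      hd.range ?_
    refine NPC.Poly.isum (NPC.Poly.map (F := fun (p : α × ℕ) t =>
      sg p.1 t * (vf p.1 t).getD p.2 0) (hS.comp e1) ?_)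
    have f1 : NPC.Poly (fun p : (α × ℕ) × τ => (p.1.1, p.2)) :=
      NPC.Poly.pair (NPC.Poly.fst (NPC.Poly.fst NPC.Poly.id)) (NPC.Poly.snd NPC.Poly.id)
    exact NPC.Poly.imul (hsg.comp f1) (NPC.Poly.getD (hvf.comp f1)
      (NPC.Poly.snd (NPC.Poly.fst NPC.Poly.id)) (NPC.Poly.const 0))
  exact NPC.Poly.ile (NPC.Poly.imul (NPC.Poly.natCast hκ) (NPC.Poly.fst h1))
    (NPC.Poly.imul (NPC.Poly.const 4) (lev_poly hd (NPC.Poly.snd h1) h2))

end

theorem keep_poly {d κ P T : α → ℕ} {vf : α → ℕ → ℕ × ℕ → List ℤ} {u : α → List Bool}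
    (hd : UPoly d) (hκ : NPC.Poly κ) (hP : UPoly P) (hT : UPoly T)
    (hvf : NPC.Poly (fun p : α × ℕ × ℕ × ℕ => vf p.1 p.2.1 p.2.2)) (hu : NPC.Poly u) :
    NPC.Poly (fun a => keep (vf a) (d a) (κ a) (P a) (T a) (u a)) := by
  unfold keep
  have e1 : NPC.Poly (fun p : α × ℕ × ℕ => p.1) := NPC.Poly.fst NPC.Poly.id
  have e2 : NPC.Poly (fun p : α × ℕ × ℕ => p.2) := NPC.Poly.snd NPC.Poly.id
  have hvf1 : NPC.Poly (fun p : α × ℕ × ℕ => vf p.1 (u p.1).length p.2) :=
    hvf.comp (NPC.Poly.pair e1 (NPC.Poly.pair (NPC.Poly.length (hu.comp e1)) e2))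
  exact keepH_poly (τ := ℕ × ℕ) (vf := fun a t => vf a (u a).length t)
    (sg := fun a t => sgn (lab (P a) t (u a))) hd hκ hvf1
    (KM.sgn_poly (lab_poly (hP.toPoly.comp e1) e2 (hu.comp e1)))
    (clean_poly (τ := ℕ × ℕ) (vf := fun a t => vf a (u a).length t) hd hκ hvf1
      (tests_poly hP hT))

theorem next_poly {K : α → List Bool → Bool} {M : α → ℕ} {W : α → List (List Bool)}
    (hK : NPC.Poly (fun p : α × List Bool => K p.1 p.2)) (hM : NPC.Poly M) (hW : NPC.Poly W) :
    NPC.Poly (fun a => next (K a) (M a) (W a)) := by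
  have h1 : NPC.Poly (fun a => (children (W a)).filter (K a)) :=
    NPC.Poly.filter (p := fun a u => K a u) (children_poly hW) hK
  exact NPC.Poly.ite (NPC.Poly.decide_le (NPC.Poly.length h1) hM) h1 (NPC.Poly.const [])

theorem level_poly {K : α → List Bool → Bool} {M n : α → ℕ}
    (hK : NPC.Poly (fun p : α × List Bool => K p.1 p.2)) (hM : UPoly M) (hn : UPoly n) :
    NPC.Poly (fun a => level (K a) (M a) (n a)) := by
  obtain ⟨qM', hMle⟩ := uPoly_le hM
  obtain ⟨qp', hple⟩ := uPoly_le hn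
  have e1 : NPC.Poly (fun q : α × List (List Bool) => q.1) := NPC.Poly.fst NPC.Poly.id
  have e2 : NPC.Poly (fun q : α × List (List Bool) => q.2) := NPC.Poly.snd NPC.Poly.id
  have hK' : NPC.Poly (fun p : (α × List (List Bool)) × List Bool => K p.1.1 p.2) :=
    hK.comp (NPC.Poly.pair (NPC.Poly.fst (NPC.Poly.fst NPC.Poly.id)) (NPC.Poly.snd NPC.Poly.id))
  have hstep : NPC.Poly (fun q : α × List (List Bool) => next (K q.1) (M q.1) q.2) :=
    next_poly (K := fun q : α × List (List Bool) => K q.1) hK' (hM.toPoly.comp e1) e2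
  have h1 := NPC.Poly.iterLen (l := fun a => List.replicate (n a) ())
    (s := fun _ : α => ([[]] : List (List Bool)))
    (F := fun a s => next (K a) (M a) s) hn
    (NPC.Poly.const _) hstep
    ((qM' + 1) * (Polynomial.C 4 * qp' + 8) + 16) (by
      intro a k hk
      rw [List.length_replicate] at hk
      obtain ⟨h2, h3, _⟩ := level_inv (K a) (M a) k
      have e : (fun s => next (K a) (M a) s)^[k] [[]] = level (K a) (M a) k := rfl
      rw [e]
      set s := level (K a) (M a) k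
      have h4 := sz_le_length_mul s (4 * k + 1) (fun u hu => by
        have := sz_listBool_le u
        rw [h2 u hu] at this
        exact this)
      have h7 := hMle a
      have h8 := hple a
      simp only [Polynomial.eval_add, Polynomial.eval_mul, Polynomial.eval_C, Polynomial.eval_one,
        Polynomial.eval_ofNat]
      have h9 : s.length ≤ qM'.eval (sz a) + 1 := h3.trans (by omega)
      have h10 : 4 * k + 1 + 1 ≤ 4 * qp'.eval (sz a) + 8 := by omega
      have h11 := Nat.mul_le_mul h9 h10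
      omega)
  refine h1.congr fun a => ?_
  rw [List.length_replicate]
  rfl

end Pool.Agent.Helper49.HS
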